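import Pool.Agent.X243.CD.Concl

/-!
The points modulo two, if the first descents are complete with points which are pulled back and scaled.
-/

set_option autoImplicit false
set_option linter.all false

open WeierstrassCurve WeierstrassCurve.Affine IsDedekindDomain Polynomial
open scoped Classical

namespace Pool.Agent.J4H46.TQ

open Pool.Agent.TH115.GD Pool.Agent.X243.CD Pool.Agent.X243.Gen
open Pool.Agent.W309.TD (Sq hp SqStable)

section pulled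

variable {K₀ K : Type} [Field K₀] [Field K]

/-- The points `(ρ² ψ(x), ρ³ ψ(y))`. -/
def PulS (ψ : K₀ →+* K) (ρ : K) {a b : K} (P : Pt (crvT a b) K) : Prop :=
  P = 0 ∨ ∃ x y h, P = Point.some (ρ ^ 2 * ψ x) (ρ ^ 3 * ψ y) h

theorem dual_pulS {ψ : K₀ →+* K} {ρ : K} (hρ : ρ ≠ 0) {a b : K} {d₀ : K₀}
    (hd : a ^ 2 - 4 * b = ρ ^ 4 * ψ d₀)
    {R : Pt (crvT (-2 * a) (a ^ 2 - 4 * b)) K} {Q : Pt (crvT a b) K} (hR : PulS ψ ρ R)
    (h : DualPt R Q) : PulS ψ ρ Q := by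
  rcases h with rfl | ⟨z, y, h1, h', hz, rfl, rfl⟩
  · exact Or.inl rfl
  · rcases hR with hR | ⟨z₀, y₀, h3, hR⟩
    · exact absurd hR (Point.some_ne_zero _)
    · rw [Point.some.injEq] at hR
      obtain ⟨rfl, rfl⟩ := hR
      have hz0 : ψ z₀ ≠ 0 := right_ne_zero_of_mul hz
      have ex : (ρ ^ 3 * ψ y₀) ^ 2 / (4 * (ρ ^ 2 * ψ z₀) ^ 2) =
          ρ ^ 2 * ψ (y₀ ^ 2 / (4 * z₀ ^ 2)) := by
        simp only [map_div₀, map_mul, map_pow, map_ofNat]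
        by_cases h4 : (4 : K) = 0
        · rw [h4]; simp
        · field_simp
      have ey : (ρ ^ 3 * ψ y₀) * ((ρ ^ 2 * ψ z₀) ^ 2 - (a ^ 2 - 4 * b)) / (8 * (ρ ^ 2 * ψ z₀) ^ 2) =
          ρ ^ 3 * ψ (y₀ * (z₀ ^ 2 - d₀) / (8 * z₀ ^ 2)) := by
        rw [hd]
        simp only [map_div₀, map_mul, map_pow, map_ofNat, map_sub]
        by_cases h4 : (8 : K) = 0
        · rw [h4]; simp
        · field_simp
      refine Or.inr ⟨y₀ ^ 2 / (4 * z₀ ^ 2), y₀ * (z₀ ^ 2 - d₀) / (8 * z₀ ^ 2), ?_, ?_⟩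
      · rw [← ex, ← ey]; exact h'
      · simp only [ex, ey]

theorem pulS_cast {ψ : K₀ →+* K} {ρ : K} {a b a' b' : K} (ea : a = a') (eb : b = b') {e : K}
    (h : ∃ (P : Pt (crvT a b) K) (c : K), PulS ψ ρ P ∧ c ≠ 0 ∧ e = c ^ 2 * dT b P) :
    ∃ (P : Pt (crvT a' b') K) (c : K), PulS ψ ρ P ∧ c ≠ 0 ∧ e = c ^ 2 * dT b' P := by
  subst ea eb
  exact h

end pulled

section glob

variable {k K K₀ : Type} [Field k] [Field K] [Algebra k[X] K] [IsFractionRing k[X] K] [Field K₀]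

structure DataS (ψ : K₀ →+* K) (ρ : K) (a b : k[X]) (I J : k[X] → Prop) : Prop where
  hρ : ρ ≠ 0
  hb : b ≠ 0
  hd : a ^ 2 - 4 * b ≠ 0
  c1 : CompleteIn K a b I {P | PulS ψ ρ P}
  c2 : CompleteIn K (-2 * a) (a ^ 2 - 4 * b) J {P | PulS ψ ρ P}
  o1 : ∃ (π : k[X]) (hπ : Irreducible π), SqStable π ∧
    ¬ IsSquare ((hp π hπ).valuation K (algebraMap k[X] K (a ^ 2 - 4 * b)))
  o2 : ∃ (π : k[X]) (hπ : Irreducible π), SqStable π ∧
    ¬ IsSquare ((hp π hπ).valuation K (algebraMap k[X] K b))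
  pd : ∃ d₀ : K₀, algebraMap k[X] K (a ^ 2 - 4 * b) = ρ ^ 4 * ψ d₀

/-- **The conclusion of the descent.** -/
theorem desc_S {ψ : K₀ →+* K} {ρ : K} {a b : k[X]} {I J : k[X] → Prop} (h2 : (2 : k) ≠ 0)
    (D : DataS ψ ρ a b I J)
    {Ω : Type} [Field Ω] [Algebra K Ω] [IsGalois K Ω] [IsSepClosed Ω]
    {V : Type} (F Ω' : V → Type)
    [∀ v, Field (F v)] [∀ v, Field (Ω' v)] [∀ v, Algebra K (F v)] [∀ v, Algebra (F v) (Ω' v)]
    [∀ v, Algebra K (Ω' v)] [∀ v, IsScalarTower K (F v) (Ω' v)] [∀ v, IsGalois (F v) (Ω' v)]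
    [∀ v, IsSepClosed (Ω' v)]
    (hF1 : ∀ (π : k[X]) (hπ : Irreducible π),
      ¬ IsSquare ((hp π hπ).valuation K (algebraMap k[X] K (a ^ 2 - 4 * b))) → ∀ e : K, e ≠ 0 →
      (∀ v, LocZ (algebraMap k[X] K a) (algebraMap k[X] K b) (F v) e) → LocOK a b I hπ e)
    (hF2 : ∀ (π : k[X]) (hπ : Irreducible π),
      ¬ IsSquare ((hp π hπ).valuation K (algebraMap k[X] K ((-2 * a) ^ 2 -
        4 * (a ^ 2 - 4 * b)))) → ∀ e : K, e ≠ 0 →
      (∀ v, LocZ (algebraMap k[X] K (-2 * a)) (algebraMap k[X] K (a ^ 2 - 4 * b)) (F v) e) →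
      LocOK (-2 * a) (a ^ 2 - 4 * b) J hπ e) :
    Desc Ω (crvT (algebraMap k[X] K a) (algebraMap k[X] K b)) F Ω'
      {P | ∃ P1 P2, PulS ψ ρ P1 ∧ PulS ψ ρ P2 ∧ P = P1 + P2} := by
  obtain ⟨hρ, hb, hd, c1, c2, ⟨π1, hπ1, s1, o1⟩, ⟨π2, hπ2, s2, o2⟩, ⟨d₀, hd₀⟩⟩ := D
  have inj := IsFractionRing.injective k[X] K
  have h2K : (2 : K) ≠ 0 := tt h2
  have hbK : algebraMap k[X] K b ≠ 0 := by simpa using hb
  have hdK : (algebraMap k[X] K a) ^ 2 - 4 * algebraMap k[X] K b ≠ 0 := by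
    rw [← emap', Ne, map_eq_zero_iff _ inj]
    exact hd
  obtain ⟨α, β, hR⟩ := exists_roots (Ω := Ω) h2K hbK hdK
  have g0 : Glob0 F (algebraMap k[X] K a) (algebraMap k[X] K b) {P | PulS ψ ρ P} := by
    intro e he hloc
    have hok := hF1 π1 hπ1 o1 e he (fun v => locz0 hbK (hloc v))
    exact coreIn h2 hb hd c1 hπ1 s1 he hok.even hok.inf hok.norm
  have e16 : (-2 * a) ^ 2 - 4 * (a ^ 2 - 4 * b) = 16 * b := by ring
  have hd2 : (-2 * a) ^ 2 - 4 * (a ^ 2 - 4 * b) ≠ 0 := by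
    rw [e16]
    have h16 : (16 : k[X]) ≠ 0 := by
      have h4 : (4 : k) ≠ 0 := by
        have : (4 : k) = 2 * 2 := by norm_num
        rw [this]
        exact mul_ne_zero h2 h2
      have e : (16 : k[X]) = C 4 * C 4 := by
        rw [C_ofNat]; norm_num
      rw [e]
      exact mul_ne_zero (C_ne_zero.2 h4) (C_ne_zero.2 h4)
    exact mul_ne_zero h16 hb
  have g1 : Glob1In F (algebraMap k[X] K a) (algebraMap k[X] K b) {P | PulS ψ ρ P} := by
    intro e he hloc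
    have hok := hF2 π2 hπ2 (by rw [e16, val16 h2]; exact o2) e he (fun v => conv1 (hloc v))
    have key := coreIn h2 hd hd2 c2 hπ2 s2 he hok.even hok.inf hok.norm
    have e1 : algebraMap k[X] K (-2 * a) = -2 * algebraMap k[X] K a := by
      simp only [map_mul, map_neg, map_ofNat]
    exact pulS_cast e1 (emap' a b) key
  have hD := descT2 (Ω' := Ω') (F := F) hR h2K hbK hdK g0 g1
  intro f hf hf2 hloc
  obtain ⟨P, H, ⟨P1, Q, R, hP1, hR', hdual, hPe⟩, hH, hfH⟩ := hD f hf hf2 hloc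
  exact ⟨P, H, ⟨P1, Q, hP1, dual_pulS hρ (by rw [← emap']; exact hd₀) hR' hdual, hPe⟩, hH, hfH⟩

/-- The Mordell-Weil group modulo 2. -/
theorem pts_S {ψ : K₀ →+* K} {ρ : K} {a b : k[X]} {I J : k[X] → Prop} (h2 : (2 : k) ≠ 0)
    (D : DataS ψ ρ a b I J) (hI : ∀ A, InfT a b A → I A)
    (hJ : ∀ A, InfT (-2 * a) (a ^ 2 - 4 * b) A → J A)
    (P0 : Pt (crvT (algebraMap k[X] K a) (algebraMap k[X] K b)) K) :
    ∃ Q P1 P2 : Pt (crvT (algebraMap k[X] K a) (algebraMap k[X] K b)) K,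
      PulS ψ ρ P1 ∧ PulS ψ ρ P2 ∧ P0 = Q + Q + (P1 + P2) := by
  have inj := IsFractionRing.injective k[X] K
  have h2K : (2 : K) ≠ 0 := tt h2
  have hbK : algebraMap k[X] K b ≠ 0 := by simpa using D.hb
  have hdK : (algebraMap k[X] K a) ^ 2 - 4 * algebraMap k[X] K b ≠ 0 := by
    rw [← emap', Ne, map_eq_zero_iff _ inj]
    exact D.hd
  obtain ⟨α, β, hR⟩ := exists_roots (Ω := SeparableClosure K) h2K hbK hdK
  have hD := desc_S h2 D (Ω := SeparableClosure K) (V := Unit) (fun _ => K)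
    (fun _ => SeparableClosure K)
    (fun π hπ ho e he h => locOK_glob h2 D.hb D.hd hI hπ ho he (h ()))
    (fun π hπ ho e he h => by
      have e16 : (-2 * a) ^ 2 - 4 * (a ^ 2 - 4 * b) = 16 * b := by ring
      refine locOK_glob h2 D.hd ?_ hJ hπ ho he (h ())
      intro h0
      rw [h0, map_zero, map_zero] at ho
      exact ho ⟨0, (mul_zero 0).symm⟩)
  obtain ⟨Q, P, ⟨P1, P2, h1, h3, rfl⟩, hP⟩ := points (W := crvT (algebraMap k[X] K a)
    (algebraMap k[X] K b)) (Ω := SeparableClosure K) (F := fun _ : Unit => K)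
    (Ω' := fun _ : Unit => SeparableClosure K) (halve_sep hR.E) hD P0
  exact ⟨Q, P1, P2, h1, h3, hP⟩

end glob

end Pool.Agent.J4H46.TQ
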