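import Pool.Agent.J4H46.TQ.Good
import Pool.Agent.J4H46.TP.ExaT

/-!
An example over the rational numbers.
-/

set_option autoImplicit false
set_option linter.all false

open Polynomial NumberField IsDedekindDomain Filter Topology
open scoped Classical

namespace Pool.Agent.J4H46.TQ

open Pool.Agent.W401.Cheb Pool.Agent.J4H46.TA Pool.Agent.J4H46.TP
open Pool.Agent.N181.P9

/-- The bad places of the example. -/
def rt6 : Fin 6 → ℚ := ![0, -6, 3, -5, 2, -3]

/-- `a` of the example. -/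
noncomputable def qA : (𝓞 ℚ)[X] := 2 * (X ^ 2 + 3 * X - 6)

/-- `b` of the example. -/
noncomputable def qB : (𝓞 ℚ)[X] := -(2 * (X + 6) * (X - 3))

theorem qA_map : qA.map (algebraMap (𝓞 ℚ) ℚ) = 2 * (X ^ 2 + 3 * X - 6) := by
  unfold qA
  simp only [Polynomial.map_mul, Polynomial.map_add, Polynomial.map_sub, Polynomial.map_pow, map_X,
    Polynomial.map_ofNat]

theorem qB_map : qB.map (algebraMap (𝓞 ℚ) ℚ) = -(2 * (X + 6) * (X - 3)) := by
  unfold qB
  simp only [Polynomial.map_mul, Polynomial.map_add, Polynomial.map_sub, Polynomial.map_neg, map_X,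
    Polynomial.map_ofNat]

theorem qD : qA ^ 2 - 4 * qB = 4 * X * (X + 5) * (X - 2) * (X + 3) := by
  unfold qA qB
  ring

theorem qG_map : (qB * (qA ^ 2 - 4 * qB)).map (algebraMap (𝓞 ℚ) ℚ) =
    C (-8) * ∏ i, (X - C (rt6 i)) := by
  rw [qD, Polynomial.map_mul, qB_map]
  simp only [Polynomial.map_mul, Polynomial.map_add, Polynomial.map_sub, map_X, Polynomial.map_ofNat]
  rw [Fin.prod_univ_six]
  have e0 : rt6 0 = 0 := rfl
  have e1 : rt6 1 = -6 := rfl
  have e2 : rt6 2 = 3 := rfl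
  have e3 : rt6 3 = -5 := rfl
  have e4 : rt6 4 = 2 := rfl
  have e5 : rt6 5 = -3 := rfl
  rw [e0, e1, e2, e3, e4, e5, C_neg, C_neg, C_neg, C_neg, C_0, C_ofNat, C_ofNat, C_ofNat, C_ofNat,
    C_ofNat]
  ring

theorem rt6_deg : (∏ i, (X - C (rt6 i))).natDegree = 6 := by
  rw [natDegree_prod_of_monic _ _ fun i _ => monic_X_sub_C _]
  simp

theorem base_exaQ : BaseQ qA qB := by
  have e := qG_map
  refine ⟨⟨two_ne_zero, ?_, ?_, ?_, ?_⟩, ?_⟩
  · rw [qA_map]
    compute_degree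
  · rw [qB_map]
    compute_degree!
  · intro c w h
    have hexp : qB.map (algebraMap (𝓞 ℚ) ℚ) = C (-2 : ℚ) * X ^ 2 + C (-6) * X + C 36 := by
      rw [qB_map, C_neg, C_neg, C_ofNat, C_ofNat, C_ofNat]
      ring
    have hd : (qB.map (algebraMap (𝓞 ℚ) ℚ)).natDegree = 2 := by
      rw [hexp]
      compute_degree!
    obtain ⟨c2, c1, c0⟩ := coef3 _ _ _ hexp
    have i1 := sq_inv2 hd h
    rw [c2, c1, c0] at i1
    norm_num at i1
  · intro c w h
    have hexp : qA.map (algebraMap (𝓞 ℚ) ℚ) ^ 2 - 4 * qB.map (algebraMap (𝓞 ℚ) ℚ) =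
        C (4 : ℚ) * X ^ 4 + C 24 * X ^ 3 + C (-4) * X ^ 2 + C (-120) * X + C 0 := by
      rw [qA_map, qB_map, C_neg, C_neg, C_ofNat, C_ofNat, C_ofNat, C_0]
      ring
    have hd : (qA.map (algebraMap (𝓞 ℚ) ℚ) ^ 2 - 4 * qB.map (algebraMap (𝓞 ℚ) ℚ)).natDegree = 4 := by
      rw [hexp, C_0, add_zero]
      compute_degree!
    obtain ⟨c4, c3, c2, c1, c0⟩ := coef5 _ _ _ _ _ hexp
    obtain ⟨i1, i2⟩ := sq_inv4 hd h
    rw [c4, c3, c2, c0] at i2
    norm_num at i2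
  · rw [e]
    exact (Splits.C _).mul (Splits.prod fun i _ => Splits.X_sub_C _)

theorem exaQ {p : ℕ} (hp : p.Prime) (h7 : 7 ≤ p) :
    ∃ δ : ℝ, 0 < δ ∧ ∀ᶠ N : ℕ in atTop, δ ≤ dens (fun v => ∀ j : ℕ,
      GoodQ (p ^ j) qA qB (X ^ (p ^ j)) 1 v) N := by
  have e := qG_map
  have h12 : (-8 : ℚ) ≠ 0 := by norm_num
  have hroot : ∀ ξ : ℚ, ((qB * (qA ^ 2 - 4 * qB)).map (algebraMap (𝓞 ℚ) ℚ)).IsRoot ξ →
      ∃ i, ξ = rt6 i := by
    intro ξ hξ
    rw [e, IsRoot.def, eval_mul, eval_C, eval_prod, mul_eq_zero] at hξ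
    obtain ⟨i, -, hi⟩ := Finset.prod_eq_zero_iff.1 (hξ.resolve_left h12)
    rw [eval_sub, eval_X, eval_C, sub_eq_zero] at hi
    exact ⟨i, hi⟩
  refine towerQ base_exaQ hp (by omega) ?_ ?_
  · refine card_lt (g := (qB * (qA ^ 2 - 4 * qB)).map (algebraMap (𝓞 ℚ) ℚ)) ?_ ?_ ?_
    · rw [e]
      exact mul_ne_zero (C_ne_zero.2 h12) (Finset.prod_ne_zero_iff.2 fun i _ => X_sub_C_ne_zero _)
    · rw [e, IsRoot.def, eval_mul, eval_prod]
      apply mul_eq_zero_of_right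
      apply Finset.prod_eq_zero (Finset.mem_univ 0)
      rw [eval_sub, eval_X, eval_C]
      exact sub_self _
    · rw [e, natDegree_C_mul h12, rt6_deg]
      omega
  · intro ξ hξ h0 y
    obtain ⟨i, rfl⟩ := hroot ξ hξ
    have h2 : 1 < p := by omega
    fin_cases i
    · exact absurd rfl h0
    · have := not_pow' 2 1 Nat.prime_two (-3) 1 (by norm_num) (by norm_num) (p := p)
        (by norm_num) h2 y
      have e : ((2 : ℕ) : ℚ) ^ 1 * (((-3 : ℤ) : ℚ) / ((1 : ℤ) : ℚ)) = -6 := by norm_num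
      rw [e] at this
      exact this
    · have := not_pow' 3 1 Nat.prime_three 1 1 (by norm_num) (by norm_num) (p := p)
        (by norm_num) h2 y
      have e : ((3 : ℕ) : ℚ) ^ 1 * (((1 : ℤ) : ℚ) / ((1 : ℤ) : ℚ)) = 3 := by norm_num
      rw [e] at this
      exact this
    · have := not_pow' 5 1 Nat.prime_five (-1) 1 (by norm_num) (by norm_num) (p := p)
        (by norm_num) h2 y
      have e : ((5 : ℕ) : ℚ) ^ 1 * (((-1 : ℤ) : ℚ) / ((1 : ℤ) : ℚ)) = -5 := by norm_num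
      rw [e] at this
      exact this
    · have := not_pow' 2 1 Nat.prime_two 1 1 (by norm_num) (by norm_num) (p := p)
        (by norm_num) h2 y
      have e : ((2 : ℕ) : ℚ) ^ 1 * (((1 : ℤ) : ℚ) / ((1 : ℤ) : ℚ)) = 2 := by norm_num
      rw [e] at this
      exact this
    · have := not_pow' 3 1 Nat.prime_three (-1) 1 (by norm_num) (by norm_num) (p := p)
        (by norm_num) h2 y
      have e : ((3 : ℕ) : ℚ) ^ 1 * (((-1 : ℤ) : ℚ) / ((1 : ℤ) : ℚ)) = -3 := by norm_num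
      rw [e] at this
      exact this

end Pool.Agent.J4H46.TQ
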