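import Pool.Agent.J4H46.TQ.Mw
import Pool.Agent.N181.P9.Main

/-!
The Tate conjecture at 2 and the points of the coverings of the rational elliptic surfaces with a section
of order two which have one point above each point of bad reduction.
-/

set_option autoImplicit false
set_option linter.all false

open Polynomial IsDedekindDomain WeierstrassCurve WeierstrassCurve.Affine
open scoped Classical

namespace Pool.Agent.J4H46.TQ

open Pool.Agent.N181.P3 (hb hb_map hb_psi)
open Pool.Agent.N181.P8 (Small small_bot sep_map exists_lift finite_mid TateQ tate_desc)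
open Pool.Agent.N181.P9
open Pool.Agent.X243.Gen (pb pb_sum pb_mul pb_C pb_one pb_pow pb_lin pb_map pb_frac pb_ne exists_psi
  natDegree_pb root_of_prime form_cop)
open Pool.Agent.TH115.GD

section defs

variable {L : Type} [Field L]

/-- The elliptic curve `y² = x (x² + a x + b)` over `K₀ = L(s)`. -/
noncomputable abbrev E2 (K₀ : Type) [Field K₀] [Algebra L[X] K₀] (a b : L[X]) :
    WeierstrassCurve K₀ :=
  crvT (algebraMap L[X] K₀ a) (algebraMap L[X] K₀ b)

/-- For the homomorphism `ψ` from `K₀ = L(s)` to `K = L(t)` with `ψ(s) = q / r` the pullback of points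
`(x, y) ↦ (r ² ψ(x), r ³ ψ(y))` is an injective homomorphism `ι` of the groups of points. If the group of
the points over `F = L'(t)` is finitely generated then the image of `ι` contains the multiples of all the
points over `K` by an odd number. -/
def PointsIdxQ (K₀ K F : Type) [Field K₀] [Field K] [Field F] [Algebra L[X] K₀] [Algebra L[X] K]
    [Algebra K F] (q r a b : L[X]) : Prop :=
  ∃ (ψ : K₀ →+* K) (ι : Pt (E2 K₀ a b) K₀ →+ Pt (surf2 K q r a b) K),
    (∀ c : L, ψ (algebraMap L[X] K₀ (C c)) = algebraMap L[X] K (C c)) ∧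
    ψ (algebraMap L[X] K₀ X) = algebraMap L[X] K q / algebraMap L[X] K r ∧
    Function.Injective ι ∧
    (∀ (x y : K₀) (hn : ((E2 K₀ a b).baseChange K₀).toAffine.Nonsingular x y),
      ∃ hn' : ((surf2 K q r a b).baseChange K).toAffine.Nonsingular
        ((algebraMap L[X] K r) ^ 2 * ψ x) ((algebraMap L[X] K r) ^ 3 * ψ y),
        ι (Point.some x y hn) = Point.some _ _ hn') ∧
    (AddGroup.FG (Pt (surf2 K q r a b) F) → ∃ N : ℕ, ¬ 2 ∣ N ∧
      ∀ P : Pt (surf2 K q r a b) K, ∃ P₀ : Pt (E2 K₀ a b) K₀, N • P = ι P₀)

end defs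

section main

variable {k L L' K₀ K F : Type} [Field k] [Field L] [Field L'] [Field K₀] [Field K] [Field F]
  [Algebra k L] [FiniteDimensional k L] [Algebra L L'] [Algebra L[X] K₀] [IsFractionRing L[X] K₀]
  [Algebra L[X] K] [Algebra L'[X] F] [IsFractionRing L'[X] F] [Algebra K F]

set_option maxHeartbeats 4000000 in
theorem mainQ (hT : IsTower L L' K F) {a b q r : k[X]} {n : ℕ} (hB : RatBase2 a b)
    (hC : Cover2 q r n a b) (hn : Nat.Coprime n (Module.finrank k L)) :
    TateQ (F := F) 2 L' (surf2 K (q.map (algebraMap k L)) (r.map (algebraMap k L))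
      (a.map (algebraMap k L)) (b.map (algebraMap k L))) ∧
    PointsIdxQ K₀ K F (q.map (algebraMap k L)) (r.map (algebraMap k L))
      (a.map (algebraMap k L)) (b.map (algebraMap k L)) := by
  haveI := hT.sep
  haveI := hT.fracK
  haveI : IsSepClosed L' := IsSepClosure.sep_closed L
  haveI : IsSepClosure K (Sep F) := sepKΩ hT.map
  haveI : Algebra.IsSeparable K (Sep F) := IsSepClosure.separable
  haveI : IsGalois K (Sep F) := inferInstance
  have hpres : Preserves K F (Sep F) := preserves hT.map
  have hBL := hB.map (algebraMap k L)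
  have h0 : b * (a ^ 2 - 4 * b) ≠ 0 := mul_ne_zero hB.hb0 hB.hd0
  have edL : (b.map (algebraMap k L)) * ((a.map (algebraMap k L)) ^ 2 -
      4 * b.map (algebraMap k L)) = (b * (a ^ 2 - 4 * b)).map (algebraMap k L) := by
    rw [map_disc2, ← Polynomial.map_mul]
  have hsepL : ∀ π : L[X], Irreducible π → π ∣ (b.map (algebraMap k L)) *
      ((a.map (algebraMap k L)) ^ 2 - 4 * b.map (algebraMap k L)) → π.Separable := by
    rw [edL]
    exact sep_map _ h0 fun π h1 h2 => (hC.fin π h1 h2).1
  obtain ⟨M, ⟨hMf, hMn⟩, hMs, hMB⟩ := exists_small2 (L' := L') hBL hC.six hsepL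
  haveI := hMf
  letI : Algebra k M := ((algebraMap L M).comp (algebraMap k L)).toAlgebra
  haveI : IsScalarTower k L M := IsScalarTower.of_algebraMap_eq fun x => rfl
  have ekM : algebraMap k M = (algebraMap L M).comp (algebraMap k L) := rfl
  haveI : FiniteDimensional k M := Module.Finite.trans L M
  have hnM : Nat.Coprime n (Module.finrank k M) := by
    rw [← Module.finrank_mul_finrank k L M]
    exact Nat.Coprime.mul_right hn hMn
  have hF := fib_over2 (M := M) hnM hC h0 (by
    rw [ekM, ← Polynomial.map_map, ← edL]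
    exact hMs)
  rw [ekM, ← Polynomial.map_map, ← Polynomial.map_map, ← Polynomial.map_map,
    ← Polynomial.map_map] at hF
  set aL := a.map (algebraMap k L) with haL
  set bL := b.map (algebraMap k L) with hbL
  set qL := q.map (algebraMap k L) with hqL
  set rL := r.map (algebraMap k L) with hrL
  have hpar : ¬ 2 ∣ n := two_of_six hC.six (dvd_refl n)
  -- the fields
  obtain ⟨i₁, hi₁⟩ := exists_lift (K := K) (K₁ := FractionRing M[X]) (algebraMap L M)
  obtain ⟨i₂, hi₂⟩ := exists_lift (K := FractionRing M[X]) (K₁ := F) (algebraMap M L')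
  letI : Algebra K (FractionRing M[X]) := i₁.toAlgebra
  letI : Algebra (FractionRing M[X]) F := i₂.toAlgebra
  have hKK : ∀ p : L[X], algebraMap K (FractionRing M[X]) (algebraMap L[X] K p) =
      algebraMap M[X] (FractionRing M[X]) (p.map (algebraMap L M)) := hi₁
  haveI : IsScalarTower K (FractionRing M[X]) F := by
    refine IsScalarTower.of_algebraMap_eq fun x => ?_
    obtain ⟨g, h, hh, rfl⟩ := IsFractionRing.div_surjective (A := L[X]) x
    have key : ∀ g : L[X], algebraMap K F (algebraMap L[X] K g) =
        i₂ (i₁ (algebraMap L[X] K g)) := by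
      intro g
      rw [hT.map, hi₁, hi₂, Polynomial.map_map]
      rfl
    show algebraMap K F _ = i₂ (i₁ _)
    rw [map_div₀, map_div₀, map_div₀, key, key]
  haveI : IsSepClosure M L' := ⟨IsSepClosure.sep_closed L, by
    haveI : Algebra.IsSeparable L L' := IsSepClosure.separable
    exact Algebra.isSeparable_tower_top_of_isSeparable L M L'⟩
  have hT1 : IsTower M L' (FractionRing M[X]) F := ⟨inferInstance, inferInstance, hi₂⟩
  haveI : FiniteDimensional K (FractionRing M[X]) := finite_mid hKK
  have hB3 := hMB (FractionRing M[X])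
  -- the coefficients
  have eA : algebraMap K (FractionRing M[X]) (algebraMap L[X] K (hb qL rL 2 aL)) =
      algebraMap M[X] (FractionRing M[X]) (hb (qL.map (algebraMap L M)) (rL.map (algebraMap L M))
        (2 * 1) ((aL.map (algebraMap L M)).map (RingHom.id M))) := by
    rw [hKK, hb_map, Polynomial.map_id]
  have eB : algebraMap K (FractionRing M[X]) (algebraMap L[X] K (hb qL rL 4 bL)) =
      algebraMap M[X] (FractionRing M[X]) (hb (qL.map (algebraMap L M)) (rL.map (algebraMap L M))
        (4 * 1) ((bL.map (algebraMap L M)).map (RingHom.id M))) := by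
    rw [hKK, hb_map, Polynomial.map_id]
  refine ⟨?_, ?_⟩
  · have h1 := tate_pull2 (K₀ := FractionRing M[X]) (F := F) hT1 hB3 (RingHom.id M) hF hpar
    refine tate_desc (K₁ := FractionRing M[X]) hpres ?_
    have e : (surf2 K qL rL aL bL).map (algebraMap K (FractionRing M[X])) =
        crvT (algebraMap M[X] (FractionRing M[X]) (hb (qL.map (algebraMap L M))
          (rL.map (algebraMap L M)) (2 * 1) ((aL.map (algebraMap L M)).map (RingHom.id M))))
          (algebraMap M[X] (FractionRing M[X]) (hb (qL.map (algebraMap L M))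
            (rL.map (algebraMap L M)) (4 * 1)
            ((bL.map (algebraMap L M)).map (RingHom.id M)))) := by
      rw [← eA, ← eB]
      ext
      · exact map_zero _
      · rfl
      · exact map_zero _
      · rfl
      · exact map_zero _
    rw [e]
    exact h1
  · have hmw := mw_pullQ (K₀ := FractionRing M[X]) (K := FractionRing M[X]) hB3 (RingHom.id M)
      hF hpar
    rw [← eA, ← eB] at hmw
    obtain ⟨ψ₁, ι₁, hψ₁, hs₁, hP₁⟩ := hmw
    have hco : IsCoprime qL rL := hC.co.map (mapRingHom (algebraMap k L))
    have hq : 0 < qL.natDegree := by rw [hqL, natDegree_map]; exact hC.qp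
    have hr0 : rL ≠ 0 := by
      intro h
      have h1 := hF.r0
      rw [h, Polynomial.map_zero] at h1
      exact h1 rfl
    have hr0' : algebraMap L[X] K rL ≠ 0 := by
      rw [Ne, map_eq_zero_iff _ (IsFractionRing.injective L[X] K)]
      exact hr0
    obtain ⟨ψ, hψ⟩ := exists_psi (K₀ := K₀) (K := K) (RingHom.id L) (q := qL) hr0 (fun g hg =>
      pb_ne hco hq (by rw [Polynomial.map_id]; exact hg))
    have ρa := hb_psi (RingHom.id L) hψ hBL.da
    have ρb := hb_psi (RingHom.id L) hψ hBL.db
    rw [Polynomial.map_id] at ρa ρb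
    obtain ⟨ι, hι, hs⟩ := exists_homT ψ hr0' ρa ρb
    refine ⟨ψ, ι, fun c => ?_, ?_, hι, hs, fun hfg => ?_⟩
    · have := hψ (C c)
      rw [Polynomial.map_id, pb_C, natDegree_C, pow_zero, one_mul] at this
      exact this.symm
    · have := hψ X
      have e3 : pb qL rL (X.map (RingHom.id L)) = qL := by
        have h4 := pb_lin qL rL 0
        rw [C_0, sub_zero, zero_mul, sub_zero] at h4
        rw [Polynomial.map_id, h4]
      rw [e3, natDegree_X, pow_one] at this
      rw [eq_div_iff hr0', this, mul_comm]
    · exact pts_final (L := L) (M := M) (K₀ := K₀) (K := K) (K₁ := FractionRing M[X]) (F := F)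
        hBL.two hKK hr0 (fun g hg => pb_ne (hco.map (mapRingHom (algebraMap L M)))
          (by rw [coe_mapRingHom, natDegree_map]; exact hq) hg) hψ hψ₁ hBL.hb0 hBL.hd0 hs hs₁ hP₁ hfg

end main

end Pool.Agent.J4H46.TQ
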