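import Pool.Agent.J4H46.TP.Prime
import Pool.Agent.J4H46.TP.Three
import Pool.Agent.J4H46.TQ.Main
import Pool.Agent.N181.P9.Tower

/-!
The Tate conjecture for the reductions of the pullbacks of the rational elliptic surfaces with a section of
order two over number fields.
-/

set_option autoImplicit false
set_option linter.all false

open Polynomial NumberField IsDedekindDomain Filter Topology
open scoped Classical

namespace Pool.Agent.J4H46.TQ

open Pool.Agent.W401.Cheb Pool.Agent.J4H46.TA Pool.Agent.J4H46.TP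
open Pool.Agent.N181.P8 (TateQ OneAbove OneAboveInf)
open Pool.Agent.N181.P9
open Pool.Agent.TH115.GD (IsTower)

/-- The Tate conjecture at `2` and the index of the pulled back points, over all the finite extensions `L`
of `κ` of degree prime to `n`, for the pullback by `q / r` of `y² = x (x² + a x + b)`. -/
def HoldsQ {κ : Type} [Field κ] (n : ℕ) (a b q r : κ[X]) : Prop :=
  ∀ (L L' K₀ K F : Type) [Field L] [Field L'] [Field K₀] [Field K] [Field F]
    [Algebra κ L] [FiniteDimensional κ L] [Algebra L L'] [Algebra L[X] K₀] [IsFractionRing L[X] K₀]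
    [Algebra L[X] K] [Algebra L'[X] F] [IsFractionRing L'[X] F] [Algebra K F],
    IsTower L L' K F → Nat.Coprime n (Module.finrank κ L) →
    TateQ (F := F) 2 L' (surf2 K (q.map (algebraMap κ L)) (r.map (algebraMap κ L))
      (a.map (algebraMap κ L)) (b.map (algebraMap κ L))) ∧
    PointsIdxQ K₀ K F (q.map (algebraMap κ L)) (r.map (algebraMap κ L))
      (a.map (algebraMap κ L)) (b.map (algebraMap κ L))

section defs

variable {k : Type} [Field k] [NumberField k]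

/-- The curve `y² = x (x² + a x + b)` over `k(s)` is the generic fibre of a rational elliptic surface with a
section of order two, `b` and `a² - 4 b` are not constants times squares, and the finite places of bad
reduction are rational. -/
structure BaseQ (a b : (𝓞 k)[X]) : Prop where
  rat : RatBase2 (a.map (algebraMap (𝓞 k) k)) (b.map (algebraMap (𝓞 k) k))
  spl : ((b * (a ^ 2 - 4 * b)).map (algebraMap (𝓞 k) k)).Splits

/-- The place at infinity is bad. -/
def InfQ (a b : (𝓞 k)[X]) : Prop := ¬ (b.natDegree = 4 ∧ (a ^ 2 - 4 * b).natDegree = 4)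

/-- The forms of the places of bad reduction: `q - ξ r` for the roots `ξ` of `b (a² - 4 b)`, and `r` if the
place at infinity is bad and `r` is not `1`. -/
def FormQ (a b q r : (𝓞 k)[X]) (f : k[X]) : Prop :=
  (∃ ξ : k, ((b * (a ^ 2 - 4 * b)).map (algebraMap (𝓞 k) k)).IsRoot ξ ∧
    f = q.map (algebraMap (𝓞 k) k) - C ξ * r.map (algebraMap (𝓞 k) k)) ∨
  (InfQ a b ∧ r ≠ 1 ∧ f = r.map (algebraMap (𝓞 k) k))

/-- At the prime `v` of `k`, with the residue field `κ`, the base has the same properties, with the same degrees,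
the map `q / r` has one closed point above each of the bad places, and the conclusions hold. -/
def GoodQ (n : ℕ) (a b q r : (𝓞 k)[X]) (v : HeightOneSpectrum (𝓞 k)) : Prop :=
  ∀ (κ : Type) [Field κ] (π : 𝓞 k →+* κ), Function.Surjective π → RingHom.ker π = v.asIdeal →
    RatBase2 (a.map π) (b.map π) ∧
    (b.map π).natDegree = b.natDegree ∧
    ((a ^ 2 - 4 * b).map π).natDegree = (a ^ 2 - 4 * b).natDegree ∧
    Cover2 (q.map π) (r.map π) n (a.map π) (b.map π) ∧
    HoldsQ n (a.map π) (b.map π) (q.map π) (r.map π)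

end defs

section square

theorem coef5 {κ : Type} [Field κ] (A B E D G : κ) {g : κ[X]}
    (h : g = C A * X ^ 4 + C B * X ^ 3 + C E * X ^ 2 + C D * X + C G) :
    g.coeff 4 = A ∧ g.coeff 3 = B ∧ g.coeff 2 = E ∧ g.coeff 1 = D ∧ g.coeff 0 = G := by
  subst h
  simp [coeff_X, coeff_C, coeff_X_pow]

theorem coef3 {κ : Type} [Field κ] (E D G : κ) {g : κ[X]}
    (h : g = C E * X ^ 2 + C D * X + C G) :
    g.coeff 2 = E ∧ g.coeff 1 = D ∧ g.coeff 0 = G := by
  subst h
  simp [coeff_X, coeff_C, coeff_X_pow]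

/-- The invariants which vanish for constants times squares of quadratic polynomials. -/
theorem sq_inv4 {κ : Type} [Field κ] {g w : κ[X]} {c : κ} (h4 : g.natDegree = 4)
    (h : g = C c * w ^ 2) :
    8 * g.coeff 1 * g.coeff 4 ^ 2 = g.coeff 3 * (4 * g.coeff 2 * g.coeff 4 - g.coeff 3 ^ 2) ∧
    64 * g.coeff 0 * g.coeff 4 ^ 3 = (4 * g.coeff 2 * g.coeff 4 - g.coeff 3 ^ 2) ^ 2 := by
  have hc : c ≠ 0 := by
    rintro rfl
    rw [C_0, zero_mul] at h
    rw [h, natDegree_zero] at h4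
    omega
  have hw : w.natDegree = 2 := by
    rw [h, natDegree_C_mul hc, natDegree_pow] at h4
    omega
  obtain ⟨x, y, z, e⟩ : ∃ x y z : κ, w = C x * X ^ 2 + C y * X + C z := by
    refine ⟨w.coeff 2, w.coeff 1, w.coeff 0, ?_⟩
    conv_lhs => rw [as_sum_range_C_mul_X_pow w, hw]
    simp [Finset.sum_range_succ]
    ring
  have e2 : g = C (c * x ^ 2) * X ^ 4 + C (2 * c * x * y) * X ^ 3 +
      C (c * (y ^ 2 + 2 * x * z)) * X ^ 2 + C (2 * c * y * z) * X + C (c * z ^ 2) := by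
    rw [h, e]
    simp only [C_mul, C_pow, C_add]
    have : (C 2 : κ[X]) = 2 := C_ofNat 2
    rw [this]
    ring
  obtain ⟨c4, c3, c2, c1, c0⟩ := coef5 _ _ _ _ _ e2
  rw [c4, c3, c2, c1, c0]
  constructor <;> ring

/-- The converse in characteristic different from two. -/
theorem sq_of_inv4 {κ : Type} [Field κ] (hk : (2 : κ) ≠ 0) {g : κ[X]} (h4 : g.natDegree = 4)
    (h1 : 8 * g.coeff 1 * g.coeff 4 ^ 2 = g.coeff 3 * (4 * g.coeff 2 * g.coeff 4 - g.coeff 3 ^ 2))
    (h2 : 64 * g.coeff 0 * g.coeff 4 ^ 3 = (4 * g.coeff 2 * g.coeff 4 - g.coeff 3 ^ 2) ^ 2) :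
    ∃ (c : κ) (w : κ[X]), g = C c * w ^ 2 := by
  have hl : g.coeff 4 ≠ 0 := by
    rw [← h4]
    have : g ≠ 0 := by
      rintro rfl
      rw [natDegree_zero] at h4
      omega
    exact leadingCoeff_ne_zero.2 this
  have h8 : (8 : κ) ≠ 0 := by
    have : (8 : κ) = 2 * 2 * 2 := by norm_num
    rw [this]
    exact mul_ne_zero (mul_ne_zero hk hk) hk
  obtain ⟨s, hs⟩ : ∃ s, s = g.coeff 3 / (2 * g.coeff 4) := ⟨_, rfl⟩
  obtain ⟨t, ht⟩ : ∃ t, t = (4 * g.coeff 2 * g.coeff 4 - g.coeff 3 ^ 2) / (8 * g.coeff 4 ^ 2) :=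
    ⟨_, rfl⟩
  have e3 : g.coeff 3 = 2 * g.coeff 4 * s := by rw [hs]; field_simp
  have et : 4 * g.coeff 2 * g.coeff 4 - g.coeff 3 ^ 2 = 8 * g.coeff 4 ^ 2 * t := by
    rw [ht]; field_simp
  have e2 : g.coeff 2 = g.coeff 4 * (s ^ 2 + 2 * t) := by
    have h4' : (4 : κ) ≠ 0 := by
      have : (4 : κ) = 2 * 2 := by norm_num
      rw [this]
      exact mul_ne_zero hk hk
    rw [e3] at et
    have h5 : 4 * g.coeff 4 * g.coeff 2 = 4 * g.coeff 4 * (g.coeff 4 * (s ^ 2 + 2 * t)) := by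
      linear_combination et
    exact mul_left_cancel₀ (mul_ne_zero h4' hl) h5
  have e1 : g.coeff 1 = 2 * g.coeff 4 * s * t := by
    rw [et, e3] at h1
    have h5 : 8 * g.coeff 4 ^ 2 * g.coeff 1 = 8 * g.coeff 4 ^ 2 * (2 * g.coeff 4 * s * t) := by
      linear_combination h1
    exact mul_left_cancel₀ (mul_ne_zero h8 (pow_ne_zero 2 hl)) h5
  have e0 : g.coeff 0 = g.coeff 4 * t ^ 2 := by
    rw [et] at h2
    have h64 : (64 : κ) ≠ 0 := by
      have : (64 : κ) = 8 * 8 := by norm_num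
      rw [this]
      exact mul_ne_zero h8 h8
    have h5 : 64 * g.coeff 4 ^ 3 * g.coeff 0 = 64 * g.coeff 4 ^ 3 * (g.coeff 4 * t ^ 2) := by
      linear_combination h2
    exact mul_left_cancel₀ (mul_ne_zero h64 (pow_ne_zero 3 hl)) h5
  refine ⟨g.coeff 4, X ^ 2 + C s * X + C t, ?_⟩
  have e : g = C (g.coeff 0) + C (g.coeff 1) * X + C (g.coeff 2) * X ^ 2 + C (g.coeff 3) * X ^ 3 +
      C (g.coeff 4) * X ^ 4 := by
    conv_lhs => rw [as_sum_range_C_mul_X_pow g, h4]
    simp [Finset.sum_range_succ]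
  conv_lhs => rw [e, e0, e1, e2, e3]
  simp only [C_mul, C_pow, C_add]
  have : (C 2 : κ[X]) = 2 := C_ofNat 2
  rw [this]
  ring

/-- The discriminant vanishes for constants times squares of linear polynomials. -/
theorem sq_inv2 {κ : Type} [Field κ] {g w : κ[X]} {c : κ} (h2 : g.natDegree = 2)
    (h : g = C c * w ^ 2) : g.coeff 1 ^ 2 = 4 * g.coeff 0 * g.coeff 2 := by
  have hc : c ≠ 0 := by
    rintro rfl
    rw [C_0, zero_mul] at h
    rw [h, natDegree_zero] at h2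
    omega
  have hw : w.natDegree = 1 := by
    rw [h, natDegree_C_mul hc, natDegree_pow] at h2
    omega
  obtain ⟨x, y, e⟩ : ∃ x y : κ, w = C x * X + C y := by
    obtain ⟨x, hx, y, e⟩ := natDegree_eq_one.1 hw
    exact ⟨x, y, e.symm⟩
  have e2 : g = C (c * x ^ 2) * X ^ 2 + C (2 * c * x * y) * X + C (c * y ^ 2) := by
    rw [h, e]
    simp only [C_mul, C_pow]
    have : (C 2 : κ[X]) = 2 := C_ofNat 2
    rw [this]
    ring
  obtain ⟨c2, c1, c0⟩ := coef3 _ _ _ e2
  rw [c2, c1, c0]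
  ring

/-- The converse in characteristic different from two. -/
theorem sq_of_inv2 {κ : Type} [Field κ] (hk : (2 : κ) ≠ 0) {g : κ[X]} (h2 : g.natDegree = 2)
    (h1 : g.coeff 1 ^ 2 = 4 * g.coeff 0 * g.coeff 2) : ∃ (c : κ) (w : κ[X]), g = C c * w ^ 2 := by
  have hl : g.coeff 2 ≠ 0 := by
    rw [← h2]
    have : g ≠ 0 := by
      rintro rfl
      rw [natDegree_zero] at h2
      omega
    exact leadingCoeff_ne_zero.2 this
  obtain ⟨t, ht⟩ : ∃ t, t = g.coeff 1 / (2 * g.coeff 2) := ⟨_, rfl⟩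
  have e1 : g.coeff 1 = 2 * g.coeff 2 * t := by rw [ht]; field_simp
  have e0 : g.coeff 0 = g.coeff 2 * t ^ 2 := by
    rw [e1] at h1
    have h4' : (4 : κ) ≠ 0 := by
      have : (4 : κ) = 2 * 2 := by norm_num
      rw [this]
      exact mul_ne_zero hk hk
    have h5 : 4 * g.coeff 2 * g.coeff 0 = 4 * g.coeff 2 * (g.coeff 2 * t ^ 2) := by
      linear_combination -h1
    exact mul_left_cancel₀ (mul_ne_zero h4' hl) h5
  refine ⟨g.coeff 2, X + C t, ?_⟩
  have e : g = C (g.coeff 0) + C (g.coeff 1) * X + C (g.coeff 2) * X ^ 2 := by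
    conv_lhs => rw [as_sum_range_C_mul_X_pow g, h2]
    simp [Finset.sum_range_succ]
  conv_lhs => rw [e, e0, e1]
  simp only [C_mul, C_pow]
  have : (C 2 : κ[X]) = 2 := C_ofNat 2
  rw [this]
  ring

variable {k : Type} [Field k] [NumberField k]

/-- The reductions of a polynomial which is not a constant times a square. -/
theorem sq_red {g : (𝓞 k)[X]} (hd : g.natDegree ≤ 4)
    (h : ∀ (c : k) (w : k[X]), g.map (algebraMap (𝓞 k) k) ≠ C c * w ^ 2) :
    ∃ s : 𝓞 k, s ≠ 0 ∧ ∀ (κ : Type) [Field κ] (π : 𝓞 k →+* κ), π s ≠ 0 →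
      (g.map π).natDegree = g.natDegree ∧ ∀ (c : κ) (w : κ[X]), g.map π ≠ C c * w ^ 2 := by
  have inj := FaithfulSMul.algebraMap_injective (𝓞 k) k
  have hg : g ≠ 0 := by
    rintro rfl
    exact h 0 1 (by rw [Polynomial.map_zero, C_0, zero_mul])
  have hl := leadingCoeff_ne_zero.2 hg
  by_cases h4 : g.natDegree = 4
  · have key : ∃ s : 𝓞 k, s ≠ 0 ∧ (s = 8 * g.coeff 1 * g.coeff 4 ^ 2 -
          g.coeff 3 * (4 * g.coeff 2 * g.coeff 4 - g.coeff 3 ^ 2) ∨
        s = 64 * g.coeff 0 * g.coeff 4 ^ 3 -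
          (4 * g.coeff 2 * g.coeff 4 - g.coeff 3 ^ 2) ^ 2) := by
      by_contra hno
      push Not at hno
      have h5 : 8 * g.coeff 1 * g.coeff 4 ^ 2 -
          g.coeff 3 * (4 * g.coeff 2 * g.coeff 4 - g.coeff 3 ^ 2) = 0 := by
        by_contra h0
        exact (hno _ h0).1 rfl
      have h6 : 64 * g.coeff 0 * g.coeff 4 ^ 3 -
          (4 * g.coeff 2 * g.coeff 4 - g.coeff 3 ^ 2) ^ 2 = 0 := by
        by_contra h0
        exact (hno _ h0).2 rfl
      obtain ⟨c, w, e⟩ := sq_of_inv4 (g := g.map (algebraMap (𝓞 k) k)) two_ne_zero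
        (by rw [natDegree_map_eq_of_injective inj, h4])
        (by
          rw [coeff_map, coeff_map, coeff_map, coeff_map, ← sub_eq_zero]
          have := congrArg (algebraMap (𝓞 k) k) h5
          simp only [map_sub, map_pow, map_mul, map_ofNat, map_zero] at this
          exact this)
        (by
          rw [coeff_map, coeff_map, coeff_map, coeff_map, ← sub_eq_zero]
          have := congrArg (algebraMap (𝓞 k) k) h6
          simp only [map_sub, map_pow, map_mul, map_ofNat, map_zero] at this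
          exact this)
      exact h c w e
    obtain ⟨s, hs, hs'⟩ := key
    refine ⟨s * g.leadingCoeff, mul_ne_zero hs hl, fun κ _ π hπ => ?_⟩
    rw [map_mul] at hπ
    have hd' := natDegree_map_of_leadingCoeff_ne_zero π (right_ne_zero_of_mul hπ)
    refine ⟨hd', fun c w e => ?_⟩
    obtain ⟨i1, i2⟩ := sq_inv4 (by rw [hd', h4]) e
    rw [coeff_map, coeff_map, coeff_map, coeff_map] at i1
    rw [coeff_map, coeff_map, coeff_map, coeff_map] at i2
    apply left_ne_zero_of_mul hπ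
    rcases hs' with hs' | hs'
    · rw [hs']
      simp only [map_sub, map_pow, map_mul, map_ofNat]
      rw [i1, sub_self]
    · rw [hs']
      simp only [map_sub, map_pow, map_mul, map_ofNat]
      rw [i2, sub_self]
  by_cases h2 : g.natDegree = 2
  · obtain ⟨s, hs'⟩ : ∃ s, s = g.coeff 1 ^ 2 - 4 * g.coeff 0 * g.coeff 2 := ⟨_, rfl⟩
    have hs : s ≠ 0 := by
      rintro rfl
      obtain ⟨c, w, e⟩ := sq_of_inv2 (g := g.map (algebraMap (𝓞 k) k)) two_ne_zero
        (by rw [natDegree_map_eq_of_injective inj, h2])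
        (by
          rw [coeff_map, coeff_map, coeff_map, ← sub_eq_zero]
          have := congrArg (algebraMap (𝓞 k) k) hs'.symm
          simp only [map_sub, map_pow, map_mul, map_ofNat, map_zero] at this
          exact this)
      exact h c w e
    refine ⟨s * g.leadingCoeff, mul_ne_zero hs hl, fun κ _ π hπ => ?_⟩
    rw [map_mul] at hπ
    have hd' := natDegree_map_of_leadingCoeff_ne_zero π (right_ne_zero_of_mul hπ)
    refine ⟨hd', fun c w e => ?_⟩
    have i1 := sq_inv2 (by rw [hd', h2]) e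
    rw [coeff_map, coeff_map, coeff_map] at i1
    apply left_ne_zero_of_mul hπ
    rw [hs']
    simp only [map_sub, map_pow, map_mul, map_ofNat]
    rw [i1, sub_self]
  · refine ⟨g.leadingCoeff, hl, fun κ _ π hπ => ?_⟩
    have hd' := natDegree_map_of_leadingCoeff_ne_zero π hπ
    refine ⟨hd', fun c w e => ?_⟩
    have hc : c ≠ 0 := by
      rintro rfl
      rw [C_0, zero_mul] at e
      apply hπ
      have := congrArg (fun f => f.coeff g.natDegree) e
      simp only [coeff_map, coeff_zero] at this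
      exact this
    have h5 := congrArg natDegree e
    rw [hd', natDegree_C_mul hc, natDegree_pow] at h5
    have h6 : w.natDegree = 0 := by omega
    have h7 : g.natDegree = 0 := by rw [h5, h6]
    apply h (algebraMap (𝓞 k) k (g.coeff 0)) 1
    rw [one_pow, mul_one, ← map_C, ← eq_C_of_natDegree_eq_zero h7]

end square

section main

variable {k : Type} [Field k] [NumberField k]

theorem gQ_map (a b : (𝓞 k)[X]) {κ : Type} [CommRing κ] (π : 𝓞 k →+* κ) :
    (a ^ 2 - 4 * b).map π = a.map π ^ 2 - 4 * b.map π := by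
  rw [Polynomial.map_sub, Polynomial.map_pow, Polynomial.map_mul, Polynomial.map_ofNat]

theorem gQ_deg {a b : (𝓞 k)[X]} (hB : BaseQ a b) : a.natDegree ≤ 2 ∧ b.natDegree ≤ 4 ∧
    (a ^ 2 - 4 * b).natDegree ≤ 4 ∧ b * (a ^ 2 - 4 * b) ≠ 0 := by
  have inj := FaithfulSMul.algebraMap_injective (𝓞 k) k
  have da := hB.rat.da
  have db := hB.rat.db
  rw [natDegree_map_eq_of_injective inj] at da db
  refine ⟨da, db, ?_, ?_⟩
  · refine (natDegree_sub_le _ _).trans (max_le ?_ ?_)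
    · exact natDegree_pow_le.trans (by omega)
    · refine natDegree_mul_le.trans ?_
      have h0 : (4 : (𝓞 k)[X]).natDegree = 0 := natDegree_ofNat 4
      rw [h0]
      omega
  · refine mul_ne_zero ?_ ?_
    · rintro rfl
      exact hB.rat.cb 0 1 (by rw [Polynomial.map_zero, C_0, zero_mul])
    · intro h
      apply hB.rat.cd 0 1
      rw [← gQ_map, h, Polynomial.map_zero, C_0, zero_mul]

/-- A reduction with one closed point above each bad place. -/
theorem goodQ_of {a b q r : (𝓞 k)[X]} {n : ℕ} (hB : BaseQ a b) (hM : MapDeg n q r)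
    (h6 : Nat.Coprime n 6) :
    ∃ s : 𝓞 k, s ≠ 0 ∧ ∀ (κ : Type) [Field κ] [Finite κ] (π : 𝓞 k →+* κ), π s ≠ 0 →
      RatBase2 (a.map π) (b.map π) ∧
      (b.map π).natDegree = b.natDegree ∧
      ((a ^ 2 - 4 * b).map π).natDegree = (a ^ 2 - 4 * b).natDegree ∧
      ((∀ P : κ[X], Irreducible P → P ∣ (b * (a ^ 2 - 4 * b)).map π →
        OneAbove (q.map π) (r.map π) n P) →
       (InfQ a b → OneAboveInf (r.map π) n) →
        Cover2 (q.map π) (r.map π) n (a.map π) (b.map π) ∧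
        HoldsQ n (a.map π) (b.map π) (q.map π) (r.map π)) := by
  have inj := FaithfulSMul.algebraMap_injective (𝓞 k) k
  obtain ⟨da, db, dd, hg⟩ := gQ_deg hB
  obtain ⟨s₁, hs₁, h₁⟩ := sq_red db hB.rat.cb
  obtain ⟨s₃, hs₃, h₃⟩ := sq_red dd (by
    intro c w
    rw [gQ_map]
    exact hB.rat.cd c w)
  obtain ⟨s₂, hs₂, h₂⟩ := cop_red hM.co
  have hq0 : q ≠ 0 := by
    rintro rfl
    have := hM.qp
    rw [natDegree_zero] at this
    exact lt_irrefl _ this
  have h30 : (2 : 𝓞 k) ≠ 0 := by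
    have : ((2 : ℕ) : 𝓞 k) ≠ 0 := Nat.cast_ne_zero.2 (by norm_num)
    exact_mod_cast this
  refine ⟨s₁ * s₂ * q.leadingCoeff * s₃ * 2,
    mul_ne_zero (mul_ne_zero (mul_ne_zero (mul_ne_zero hs₁ hs₂) (leadingCoeff_ne_zero.2 hq0))
      hs₃) h30, ?_⟩
  intro κ _ _ π hπ
  rw [map_mul, map_mul, map_mul, map_mul, map_ofNat] at hπ
  have p5 : (2 : κ) ≠ 0 := right_ne_zero_of_mul hπ
  have hπ := left_ne_zero_of_mul hπ
  have p4 : π s₃ ≠ 0 := right_ne_zero_of_mul hπ
  have hπ := left_ne_zero_of_mul hπ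
  have p3 : π q.leadingCoeff ≠ 0 := right_ne_zero_of_mul hπ
  have hπ := left_ne_zero_of_mul hπ
  have p2 := right_ne_zero_of_mul hπ
  have p1 := left_ne_zero_of_mul hπ
  obtain ⟨b1, b2⟩ := h₁ κ π p1
  obtain ⟨d1, d2⟩ := h₃ κ π p4
  rw [gQ_map] at d2
  have hF2 : RatBase2 (a.map π) (b.map π) :=
    ⟨p5, natDegree_map_le.trans da, natDegree_map_le.trans db, b2, d2⟩
  refine ⟨hF2, b1, d1, fun hP hI => ?_⟩
  have hC : Cover2 (q.map π) (r.map π) n (a.map π) (b.map π) := by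
    refine ⟨h₂ κ π p2, ?_, natDegree_map_le.trans hM.qn, natDegree_map_le.trans hM.rn, h6, ?_, ?_⟩
    · rw [natDegree_map_of_leadingCoeff_ne_zero π p3]
      exact hM.qp
    · intro P h1 h2
      rw [← gQ_map, ← Polynomial.map_mul] at h2
      exact ⟨PerfectField.separable_of_irreducible h1, hP P h1 h2⟩
    · rw [← gQ_map, b1, d1]
      by_cases hi : b.natDegree = 4 ∧ (a ^ 2 - 4 * b).natDegree = 4
      · exact Or.inl hi
      · exact Or.inr (hI hi)
  refine ⟨hC, ?_⟩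
  intro L L' K₀ K F _ _ _ _ _ _ _ _ _ _ _ _ _ _ hT hn
  exact mainQ hT hF2 hC hn

/-- **The criterion.** -/
theorem critQ {a b q r : (𝓞 k)[X]} {n : ℕ} (hB : BaseQ a b) (hM : MapDeg n q r)
    (h6 : Nat.Coprime n 6) {σ : GK k}
    (h : ∀ f, FormQ a b q r f → OneAt σ n f) :
    ∃ δ : ℝ, 0 < δ ∧ ∀ᶠ N : ℕ in atTop, δ ≤ dens (GoodQ n a b q r) N := by
  obtain ⟨da, db, dd, hg⟩ := gQ_deg hB
  obtain ⟨s, hs0, hs⟩ := goodQ_of hB hM h6
  obtain ⟨F, t, ht0, hF0, hFσ, hF⟩ := map_red (g := b * (a ^ 2 - 4 * b)) (q := q) (r := r) hM.odd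
    hg hB.spl (I := InfQ a b ∧ r ≠ 1) (σ := σ)
    (fun ξ hξ => h _ (Or.inl ⟨ξ, hξ, rfl⟩)) (fun hI => h _ (Or.inr ⟨hI.1, hI.2, rfl⟩))
  refine pos_fam hF0 hFσ (fin_bad (mul_ne_zero hs0 ht0)) fun v hv τ hτ hfr κ _ π hsu hk => ?_
  have hst : π (s * t) ≠ 0 := by
    intro h0
    apply hv
    show s * t ∈ v.asIdeal
    rw [← hk, RingHom.mem_ker]
    exact h0
  rw [map_mul] at hst
  haveI := fin_res hsu hk
  obtain ⟨h1, h2, h2', h3⟩ := hs κ π (left_ne_zero_of_mul hst)
  obtain ⟨h4, h5, h6⟩ := hF v τ hfr hτ κ π hsu hk (right_ne_zero_of_mul hst)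
  obtain ⟨h7, h8⟩ := h3 h5 (fun hd => by
    by_cases hr : r = 1
    · rw [hr, Polynomial.map_one]
      exact Or.inl rfl
    · exact h6 ⟨hd, hr⟩)
  exact ⟨h1, h2, h2', h7, h8⟩

/-- **Maps of prime degree.** -/
theorem primeQ {a b q r : (𝓞 k)[X]} {n : ℕ} (hB : BaseQ a b) (hM : MapDeg n q r) (hp : n.Prime)
    (h7 : 11 ≤ n) (h : ∀ f, FormQ a b q r f → InertOrTotal n f) :
    ∃ δ : ℝ, 0 < δ ∧ ∀ᶠ N : ℕ in atTop, δ ≤ dens (GoodQ n a b q r) N := by
  obtain ⟨da, db, dd, hg⟩ := gQ_deg hB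
  have hdeg : (b * (a ^ 2 - 4 * b)).natDegree ≤ b.natDegree + (a ^ 2 - 4 * b).natDegree :=
    natDegree_mul_le
  obtain ⟨σ, h1, h2⟩ := forms_sigma (g := b * (a ^ 2 - 4 * b)) (q := q) (r := r) hp hg
    (I := InfQ a b ∧ r ≠ 1) (fun ξ hξ => h _ (Or.inl ⟨ξ, hξ, rfl⟩))
    (fun hI => h _ (Or.inr ⟨hI.1, hI.2, rfl⟩)) (fun _ => by omega) (fun hI => by
      have := hI.1
      unfold InfQ at this
      omega)
  refine critQ hB hM (coprime_six hp (by omega)) (σ := σ) ?_
  rintro f (⟨ξ, hξ, rfl⟩ | ⟨hI1, hI2, rfl⟩)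
  · exact h1 ξ hξ
  · exact h2 ⟨hI1, hI2⟩

/-- **Towers.** -/
theorem towerQ {a b : (𝓞 k)[X]} {p : ℕ} (hB : BaseQ a b) (hp : p.Prime) (h5 : 5 ≤ p)
    (hc : ((((b * (a ^ 2 - 4 * b)).map (algebraMap (𝓞 k) k)).roots.toFinset).erase 0).card < p)
    (h : ∀ ξ : k, ((b * (a ^ 2 - 4 * b)).map (algebraMap (𝓞 k) k)).IsRoot ξ → ξ ≠ 0 →
      ∀ y : k, y ^ p ≠ ξ) :
    ∃ δ : ℝ, 0 < δ ∧ ∀ᶠ N : ℕ in atTop,
      δ ≤ dens (fun v => ∀ j : ℕ, GoodQ (p ^ j) a b (X ^ (p ^ j)) 1 v) N := by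
  obtain ⟨da, db, dd, hg⟩ := gQ_deg hB
  have hodd : Odd p := hp.odd_of_ne_two (by omega)
  obtain ⟨σ, hσ⟩ := pow_sigma hp hg hc h
  have hco : ∀ m : ℕ, IsCoprime (((X : (𝓞 k)[X]) ^ m).map (algebraMap (𝓞 k) k))
      ((1 : (𝓞 k)[X]).map (algebraMap (𝓞 k) k)) := by
    intro m
    rw [Polynomial.map_one]
    exact isCoprime_one_right
  have hM : MapDeg p ((X : (𝓞 k)[X]) ^ p) 1 := by
    refine ⟨hco p, ?_, ?_, ?_, hodd⟩
    · rw [natDegree_X_pow]; exact hp.pos
    · rw [natDegree_X_pow]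
    · rw [natDegree_one]; exact Nat.zero_le _
  obtain ⟨s, hs0, hs⟩ := goodQ_of hB hM (coprime_six hp h5)
  obtain ⟨F, t, ht0, hF0, hFσ, hF⟩ := map_red (g := b * (a ^ 2 - 4 * b)) (q := X ^ p) (r := 1)
    hodd hg hB.spl (I := False) (σ := σ) hσ (fun h => h.elim)
  have hp0 : (p : 𝓞 k) ≠ 0 := Nat.cast_ne_zero.2 hp.ne_zero
  refine pos_fam hF0 hFσ (fin_bad (mul_ne_zero (mul_ne_zero hs0 ht0) hp0))
    fun v hv τ hτ hfr j κ _ π hsu hk => ?_
  have hst : π (s * t * p) ≠ 0 := by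
    intro h0
    apply hv
    show s * t * p ∈ v.asIdeal
    rw [← hk, RingHom.mem_ker]
    exact h0
  rw [map_mul, map_mul, map_natCast] at hst
  have hpk : (p : κ) ≠ 0 := right_ne_zero_of_mul hst
  have hst := left_ne_zero_of_mul hst
  haveI := fin_res hsu hk
  obtain ⟨h1, h2, h2', -⟩ := hs κ π (left_ne_zero_of_mul hst)
  obtain ⟨h4, h5', -⟩ := hF v τ hfr hτ κ π hsu hk (right_ne_zero_of_mul hst)
  have eg : b.map π * (a.map π ^ 2 - 4 * b.map π) = (b * (a ^ 2 - 4 * b)).map π := by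
    rw [Polynomial.map_mul, gQ_map]
  have hne : b.map π * (a.map π ^ 2 - 4 * b.map π) ≠ 0 := mul_ne_zero h1.hb0 h1.hd0
  have hl : π (b * (a ^ 2 - 4 * b)).leadingCoeff ≠ 0 := by
    intro h0
    have h7 : ((b * (a ^ 2 - 4 * b)).map π).coeff (b * (a ^ 2 - 4 * b)).natDegree = 0 := by
      rw [coeff_map]
      exact h0
    rw [← h4] at h7
    have h8 : (b * (a ^ 2 - 4 * b)).map π = 0 := leadingCoeff_eq_zero.1 h7
    rw [eg] at hne
    exact hne h8
  obtain ⟨hsp, hrt⟩ := root_red hB.spl π hl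
  rw [Polynomial.map_pow, map_X, Polynomial.map_one] at h5'
  have hC : Cover2 (((X : (𝓞 k)[X]) ^ (p ^ j)).map π) ((1 : (𝓞 k)[X]).map π) (p ^ j) (a.map π)
      (b.map π) := by
    rw [Polynomial.map_pow, map_X, Polynomial.map_one]
    have := cover_pow2 (a := a.map π) (b := b.map π) hne (by rw [eg]; exact hsp) (n := p ^ j)
      (Nat.Coprime.pow_left j (coprime_six hp h5)) (by
        rw [Nat.cast_pow]
        exact pow_ne_zero _ hpk) (c := 0) (fun ξ hξ => ?_)
    · rwa [C_0, add_zero] at this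
    · rw [eg] at hξ
      rcases pow_good hp hpk h5' hξ with h0 | h0
      · exact Or.inl h0
      · right
        intro l hl hlp y
        have e : l = p := (Nat.prime_dvd_prime_iff_eq hl hp).1 (hl.dvd_of_dvd_pow hlp)
        rw [e, sub_zero]
        exact h0 y
  refine ⟨h1, h2, h2', hC, ?_⟩
  intro L L' K₀ K F _ _ _ _ _ _ _ _ _ _ _ _ _ _ hT hn
  exact mainQ hT h1 hC hn

end main

end Pool.Agent.J4H46.TQ
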