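import Pool.Agent.J4H46.TQ.Pts

/-!
The points of the pullback modulo two, and their descent along a finite extension of the constants.
-/

set_option autoImplicit false
set_option linter.all false

open Polynomial IsDedekindDomain WeierstrassCurve WeierstrassCurve.Affine
open scoped Classical

namespace Pool.Agent.J4H46.TQ

open Pool.Agent.N181.P3 (hb hb_map hb_sum hb_psi natDegree_hb_le rm_C_mul Scaled scaleHom
  scaleHom_inj)
open Pool.Agent.N181.P8 (natDegree_pb' psi_compat desc_fun exists_lift castP castP_some fg_of_inj)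
open Pool.Agent.N181.P9
open Pool.Agent.N181.TD (two_exponent)
open Pool.Agent.X243.Gen (pb pb_sum pb_mul pb_C pb_one pb_pow pb_lin pb_map pb_frac pb_ne exists_psi
  natDegree_pb root_of_prime form_cop InfT)
open Pool.Agent.X243.Tate (nonsT)
open Pool.Agent.X243.CD
open Pool.Agent.TH115.GD
open Pool.Agent.W309.TD (Sq hp SqStable sqStable_of_odd)

section mw

variable {k K₀ : Type} [Field k] [Field K₀] [Algebra k[X] K₀] [IsFractionRing k[X] K₀]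
  {m n : ℕ} {a b : k[X]}
  {L K : Type} [Field L] [Field K] [Algebra L[X] K] [IsFractionRing L[X] K]

theorem mw_pullQ (hB : Base2 K₀ m a b) (φ : k →+* L) {q r : L[X]}
    (hF : Fib2 φ q r m n a b) (hpar : ¬ 2 ∣ n) :
    ∃ (ψ : K₀ →+* K) (ι : Pt (crvT (algebraMap k[X] K₀ a) (algebraMap k[X] K₀ b)) K₀ →+
        Pt (crvT (algebraMap L[X] K (hb q r (2 * m) (a.map φ)))
          (algebraMap L[X] K (hb q r (4 * m) (b.map φ)))) K),
      (∀ g : k[X], algebraMap L[X] K (pb q r (g.map φ)) =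
        (algebraMap L[X] K r) ^ g.natDegree * ψ (algebraMap k[X] K₀ g)) ∧
      (∀ (x y : K₀) (hn : ((crvT (algebraMap k[X] K₀ a)
        (algebraMap k[X] K₀ b)).baseChange K₀).toAffine.Nonsingular x y),
        ∃ hn' : ((crvT (algebraMap L[X] K (hb q r (2 * m) (a.map φ)))
          (algebraMap L[X] K (hb q r (4 * m) (b.map φ)))).baseChange K).toAffine.Nonsingular
            (((algebraMap L[X] K r) ^ m) ^ 2 * ψ x) (((algebraMap L[X] K r) ^ m) ^ 3 * ψ y),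
          ι (Point.some x y hn) = Point.some _ _ hn') ∧
      ∀ P, ∃ Q P₀, P = 2 • Q + ι P₀ := by
  have hco := hF.co
  have hq := hF.qp
  have hr0 := hF.r0
  have hdisc := disc_pull2 φ hB hr0 hco hq
  have h2a := a_pull2 φ hB hr0 hco hq
  have inj₀ := IsFractionRing.injective k[X] K₀
  have h2L : (2 : L) ≠ 0 := by
    rw [← map_ofNat φ 2]
    exact (map_ne_zero_iff _ φ.injective).2 hB.two
  have h2₀ : (2 : K₀) ≠ 0 := by
    have h3 : algebraMap k[X] K₀ (C 2) ≠ 0 := by simpa using hB.two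
    rwa [C_ofNat, map_ofNat] at h3
  have hpb : ∀ g : k[X], g ≠ 0 → pb q r (g.map φ) ≠ 0 := fun g hg =>
    pb_ne hco hq ((Polynomial.map_ne_zero_iff φ.injective).2 hg)
  have hb0 : ∀ (M : ℕ) (g : k[X]), g ≠ 0 → hb q r M (g.map φ) ≠ 0 := fun M g hg =>
    mul_ne_zero (pow_ne_zero _ hr0) (hpb g hg)
  have rb : ∀ ξ, b.IsRoot ξ → PwO (q - C (φ ξ) * r) ∧ (q - C (φ ξ) * r).natDegree = n := by
    intro ξ h
    exact hF.fb ξ (by rw [IsRoot.def, eval_mul, IsRoot.def.1 h, zero_mul])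
  have rd : ∀ ξ, (a ^ 2 - 4 * b).IsRoot ξ → PwO (q - C (φ ξ) * r) ∧
      (q - C (φ ξ) * r).natDegree = n := by
    intro ξ h
    exact hF.fb ξ (by rw [IsRoot.def, eval_mul, IsRoot.def.1 h, mul_zero])
  obtain ⟨ψ, hψ⟩ := exists_psi (K₀ := K₀) (K := K) φ (q := q) hr0 (fun g hg =>
    pb_ne hco hq ((Polynomial.map_ne_zero_iff φ.injective).2 hg))
  have hr0' : algebraMap L[X] K r ≠ 0 := by simpa using hr0
  have hρ : (algebraMap L[X] K r) ^ m ≠ 0 := pow_ne_zero m hr0'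
  have ha' : (hb q r (2 * m) (a.map φ)).natDegree ≤ 2 * (n * m) := by
    refine (natDegree_hb_le hF.qn hF.rn (by rw [natDegree_map]; exact hB.da)).trans ?_
    exact le_of_eq (by ring)
  have hdd : (-2 * a) ^ 2 - 4 * (a ^ 2 - 4 * b) ≠ 0 := by
    rw [dual_disc2]
    have h16 : (16 : k) ≠ 0 := by
      have : (16 : k) = 2 ^ 4 := by norm_num
      rw [this]
      exact pow_ne_zero 4 hB.two
    exact mul_ne_zero (C_ne_zero.2 h16) hB.hb
  have ρa : algebraMap L[X] K (hb q r (2 * m) (a.map φ)) =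
      ((algebraMap L[X] K r) ^ m) ^ 2 * ψ (algebraMap k[X] K₀ a) := by
    rw [hb_psi φ hψ hB.da, ← pow_mul, mul_comm m 2]
  have ρb : algebraMap L[X] K (hb q r (4 * m) (b.map φ)) =
      ((algebraMap L[X] K r) ^ m) ^ 4 * ψ (algebraMap k[X] K₀ b) := by
    rw [hb_psi φ hψ hB.db, ← pow_mul, mul_comm m 4]
  have key1 : CompleteIn K (hb q r (2 * m) (a.map φ)) (hb q r (4 * m) (b.map φ))
      (InfT (hb q r (2 * m) (a.map φ)) (hb q r (4 * m) (b.map φ)))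
      {P | PulS ψ ((algebraMap L[X] K r) ^ m) P} := by
    intro A h1 h3 h4 h5
    exact comp_pullS (K₀ := K₀) (K := K) φ hB.two hB.da hB.db hB.hb
      hB.hd hB.sb hB.c1 hr0 hF.npos hψ rb
      (by
        rcases hF.rb with h | h | h
        · exact Or.inl h
        · exact Or.inr (Or.inl h.1)
        · exact Or.inr (Or.inr h))
      hpar rfl rfl A h1.ne_zero (fun π h6 h7 => h7.trans h4)
      (fun h6 => (h5 (n * m) ha' h6).two_dvd)
  have key2 : CompleteIn K (-2 * hb q r (2 * m) (a.map φ))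
      (hb q r (2 * m) (a.map φ) ^ 2 - 4 * hb q r (4 * m) (b.map φ))
      (InfT (-2 * hb q r (2 * m) (a.map φ))
        (hb q r (2 * m) (a.map φ) ^ 2 - 4 * hb q r (4 * m) (b.map φ)))
      {P | PulS ψ ((algebraMap L[X] K r) ^ m) P} := by
    rw [hdisc, h2a]
    intro A h1 h3 h4 h5
    exact comp_pullS (K₀ := K₀) (K := K) φ hB.two
      (two_a.trans hB.da) hB.dd hB.hd hdd hB.sd hB.c2 hr0 hF.npos hψ rd
      (by
        rcases hF.rb with h | h | h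
        · exact Or.inl h
        · exact Or.inr (Or.inl h.2)
        · exact Or.inr (Or.inr h))
      hpar rfl rfl A h1.ne_zero (fun π h6 h7 => h7.trans h4)
      (fun h6 => (h5 (n * m) (by rw [← h2a]; exact two_a.trans ha') h6).two_dvd)
  have D : DataS (K := K) ψ ((algebraMap L[X] K r) ^ m) (hb q r (2 * m) (a.map φ))
      (hb q r (4 * m) (b.map φ)) (InfT (hb q r (2 * m) (a.map φ)) (hb q r (4 * m) (b.map φ)))
      (InfT (-2 * hb q r (2 * m) (a.map φ))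
        (hb q r (2 * m) (a.map φ) ^ 2 - 4 * hb q r (4 * m) (b.map φ))) := by
    refine ⟨hρ, hb0 _ b hB.hb, by rw [hdisc]; exact hb0 _ _ hB.hd, key1, key2, ?_, ?_, ?_⟩
    · obtain ⟨ξ, hξ⟩ := hB.od
      rw [hdisc]
      exact odd_place_of (odd_factor_pull φ hco hq hr0 hB.hd hB.sd (fun ξ h => (rd ξ h).1) hξ)
    · obtain ⟨ξ, hξ⟩ := hB.ob
      exact odd_place_of (odd_factor_pull φ hco hq hr0 hB.hb hB.sb (fun ξ h => (rb ξ h).1) hξ)
    · refine ⟨algebraMap k[X] K₀ (a ^ 2 - 4 * b), ?_⟩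
      rw [hdisc, hb_psi φ hψ hB.dd, ← pow_mul, mul_comm m 4]
  obtain ⟨ι, hι, hs⟩ := exists_homT ψ hρ ρa ρb
  refine ⟨ψ, ι, hψ, hs, fun P => ?_⟩
  have hb₀' : algebraMap k[X] K₀ b ≠ 0 := by
    rw [Ne, map_eq_zero_iff _ inj₀]
    exact hB.hb
  have hd₀' : (algebraMap k[X] K₀ a) ^ 2 - 4 * algebraMap k[X] K₀ b ≠ 0 := by
    rw [← emap', Ne, map_eq_zero_iff _ inj₀]
    exact hB.hd
  obtain ⟨Q, P1, P2, h1, h3, e⟩ := pts_S h2L D (fun A h => h) (fun A h => h) P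
  obtain ⟨R1, e1⟩ := pulS_range ψ hρ ρa ρb h2₀ hb₀' hd₀' hs h1
  obtain ⟨R2, e2⟩ := pulS_range ψ hρ ρa ρb h2₀ hb₀' hd₀' hs h3
  refine ⟨Q, R1 + R2, ?_⟩
  rw [map_add, e1, e2, two_nsmul]
  exact e

end mw

section pts

variable {L M : Type} [Field L] [Field M] [Algebra L M] [FiniteDimensional L M]
  {K₀ K K₀₁ K₁ : Type} [Field K₀] [Field K] [Field K₀₁] [Field K₁] [Algebra L[X] K₀]
  [Algebra L[X] K] [Algebra M[X] K₀₁] [Algebra M[X] K₁] [IsFractionRing L[X] K₀]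
  [IsFractionRing L[X] K] [IsFractionRing M[X] K₀₁] [IsFractionRing M[X] K₁] [Algebra K K₁]

theorem pts_desc (h3 : (2 : L) ≠ 0)
    (hKK : ∀ p : L[X], algebraMap K K₁ (algebraMap L[X] K p) =
      algebraMap M[X] K₁ (p.map (algebraMap L M)))
    {q r : L[X]} (hr : r ≠ 0)
    (hne : ∀ g : M[X], g ≠ 0 →
      pb (q.map (algebraMap L M)) (r.map (algebraMap L M)) g ≠ 0)
    {ψ : K₀ →+* K} {ψ₁ : K₀₁ →+* K₁} {j₀ : K₀ →+* K₀₁}
    (hj : ∀ p : L[X], j₀ (algebraMap L[X] K₀ p) = algebraMap M[X] K₀₁ (p.map (algebraMap L M)))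
    (hψ : ∀ g : L[X], algebraMap L[X] K (pb q r (g.map (RingHom.id L))) =
      (algebraMap L[X] K r) ^ g.natDegree * ψ (algebraMap L[X] K₀ g))
    (hψ₁ : ∀ g : M[X], algebraMap M[X] K₁ (pb (q.map (algebraMap L M)) (r.map (algebraMap L M))
      (g.map (RingHom.id M))) = (algebraMap M[X] K₁ (r.map (algebraMap L M))) ^ g.natDegree *
        ψ₁ (algebraMap M[X] K₀₁ g))
    {a₀ b₀ : K₀} (hb₀ : b₀ ≠ 0) (hd₀ : a₀ ^ 2 - 4 * b₀ ≠ 0) {aK bK ρ : K} (hρ : ρ ≠ 0)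
    {ι : Pt (crvT a₀ b₀) K₀ →+ Pt (crvT aK bK) K}
    (hι : ∀ (x y : K₀) (hn : ((crvT a₀ b₀).baseChange K₀).toAffine.Nonsingular x y),
        ∃ hn' : ((crvT aK bK).baseChange K).toAffine.Nonsingular (ρ ^ 2 * ψ x) (ρ ^ 3 * ψ y),
          ι (Point.some x y hn) = Point.some (ρ ^ 2 * ψ x) (ρ ^ 3 * ψ y) hn')
    {a₁ b₁ : K₀₁} (ha₁ : a₁ = j₀ a₀) (hb₁ : b₁ = j₀ b₀) {aK₁ bK₁ ρ₁ : K₁}
    (hρ₁ : ρ₁ = algebraMap K K₁ ρ)
    {ι₁ : Pt (crvT a₁ b₁) K₀₁ →+ Pt (crvT aK₁ bK₁) K₁}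
    (hι₁ : ∀ (x y : K₀₁) (hn : ((crvT a₁ b₁).baseChange K₀₁).toAffine.Nonsingular x y),
        ∃ hn' : ((crvT aK₁ bK₁).baseChange K₁).toAffine.Nonsingular (ρ₁ ^ 2 * ψ₁ x)
          (ρ₁ ^ 3 * ψ₁ y), ι₁ (Point.some x y hn) = Point.some (ρ₁ ^ 2 * ψ₁ x) (ρ₁ ^ 3 * ψ₁ y) hn')
    (P : Pt (crvT aK bK) K) (P' : Pt (crvT aK₁ bK₁) K₁)
    (hPP : (P = 0 ∧ P' = 0) ∨ ∃ (x y : K) (h : ((crvT aK bK).baseChange K).toAffine.Nonsingular x y)
      (h' : ((crvT aK₁ bK₁).baseChange K₁).toAffine.Nonsingular (algebraMap K K₁ x)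
        (algebraMap K K₁ y)), P = Point.some x y h ∧ P' = Point.some _ _ h')
    (P₀₁ : Pt (crvT a₁ b₁) K₀₁) (hP : ι₁ P₀₁ = P') : ∃ P₀ : Pt (crvT a₀ b₀) K₀, ι P₀ = P := by
  rcases hPP with ⟨rfl, -⟩ | ⟨x, y, h, h', rfl, rfl⟩
  · exact ⟨0, map_zero _⟩
  have hcomp := psi_compat (K₀ := K₀) hKK hr hj hψ hψ₁
  have hinjK := (algebraMap K K₁).injective
  have hρ₁0 : ρ₁ ≠ 0 := by rw [hρ₁]; exact (map_ne_zero_iff _ hinjK).2 hρ
  rcases P₀₁ with _ | ⟨x₁, y₁, hn₁⟩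
  · exfalso
    have h0 : ι₁ (Point.zero : Pt (crvT a₁ b₁) K₀₁) = 0 := map_zero ι₁
    rw [h0] at hP
    cases hP
  obtain ⟨hn', e⟩ := hι₁ x₁ y₁ hn₁
  rw [e] at hP
  have h1 := Point.some.inj hP
  obtain ⟨hx, hy⟩ := h1
  -- the coordinates come from `K₀`
  have back : ∀ (z : K₀₁) (w : K), ψ₁ z = algebraMap K K₁ w → ∃ z₀ : K₀, z = j₀ z₀ := by
    intro z w hz
    obtain ⟨u, v, hv, rfl⟩ := IsFractionRing.div_surjective (A := L[X]) w
    have hv0 := nonZeroDivisors.ne_zero hv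
    have hv' : algebraMap L[X] K v ≠ 0 := by simpa using hv0
    obtain ⟨g, h, h0, e⟩ := desc_fun (L := L) (K₀ := K₀) hne hr hψ₁ (x := z) (u := u) (v := v) hv0
      (by
        rw [hz, ← hKK, ← hKK, ← map_mul, div_mul_cancel₀ _ hv'])
    exact ⟨algebraMap L[X] K₀ g / algebraMap L[X] K₀ h, by rw [e, map_div₀, hj, hj]⟩
  obtain ⟨x₀, hx₀⟩ := back x₁ (x / ρ ^ 2) (by
    rw [map_div₀, map_pow, ← hρ₁, ← hx]
    field_simp)
  obtain ⟨y₀, hy₀⟩ := back y₁ (y / ρ ^ 3) (by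
    rw [map_div₀, map_pow, ← hρ₁, ← hy]
    field_simp)
  have h3₀ : (2 : K₀) ≠ 0 := by
    have h3 : algebraMap L[X] K₀ (C 2) ≠ 0 := by
      simpa using h3
    rwa [C_ofNat, map_ofNat] at h3
  have hn₀ : ((crvT a₀ b₀).baseChange K₀).toAffine.Nonsingular x₀ y₀ := by
    refine nonsT h3₀ hb₀ hd₀ ?_
    have h4 : y₁ ^ 2 = x₁ * (x₁ ^ 2 + a₁ * x₁ + b₁) := crvT_eq hn₁
    rw [ha₁, hb₁, hx₀, hy₀] at h4
    apply j₀.injective
    simp only [map_add, map_mul, map_pow]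
    exact h4
  obtain ⟨hn2, e2⟩ := hι x₀ y₀ hn₀
  refine ⟨Point.some x₀ y₀ hn₀, ?_⟩
  rw [e2]
  have ex : ρ ^ 2 * ψ x₀ = x := by
    apply hinjK
    rw [map_mul, map_pow, ← hρ₁, ← hcomp, ← hx₀, hx]
  have ey : ρ ^ 3 * ψ y₀ = y := by
    apply hinjK
    rw [map_mul, map_pow, ← hρ₁, ← hcomp, ← hy₀, hy]
  simp only [ex, ey]

end pts

/-- The base change of `crvT a b`. -/
theorem crv_cast {K K₁ Ω : Type} [Field K] [Field K₁] [Field Ω] [Algebra K K₁] [Algebra K Ω]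
    [Algebra K₁ Ω] [IsScalarTower K K₁ Ω] (a b : K) :
    ((crvT a b).baseChange Ω).toAffine =
      ((crvT (algebraMap K K₁ a) (algebraMap K K₁ b)).baseChange Ω).toAffine := by
  ext
  · show algebraMap K Ω 0 = algebraMap K₁ Ω 0
    rw [map_zero, map_zero]
  · exact IsScalarTower.algebraMap_apply K K₁ Ω _
  · show algebraMap K Ω 0 = algebraMap K₁ Ω 0
    rw [map_zero, map_zero]
  · exact IsScalarTower.algebraMap_apply K K₁ Ω _
  · show algebraMap K Ω 0 = algebraMap K₁ Ω 0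
    rw [map_zero, map_zero]

section fin

variable {L M : Type} [Field L] [Field M] [Algebra L M] [FiniteDimensional L M]
  {K₀ K K₁ F : Type} [Field K₀] [Field K] [Field K₁] [Field F] [Algebra L[X] K₀]
  [Algebra L[X] K] [Algebra M[X] K₁] [IsFractionRing L[X] K₀]
  [IsFractionRing L[X] K] [IsFractionRing M[X] K₁] [Algebra K K₁] [Algebra K F] [Algebra K₁ F]
  [IsScalarTower K K₁ F]

theorem pts_final (h3 : (2 : L) ≠ 0)
    (hKK : ∀ p : L[X], algebraMap K K₁ (algebraMap L[X] K p) =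
      algebraMap M[X] K₁ (p.map (algebraMap L M)))
    {q r : L[X]} (hr : r ≠ 0)
    (hne : ∀ g : M[X], g ≠ 0 →
      pb (q.map (algebraMap L M)) (r.map (algebraMap L M)) g ≠ 0)
    {ψ : K₀ →+* K} {ψ₁ : K₁ →+* K₁}
    (hψ : ∀ g : L[X], algebraMap L[X] K (pb q r (g.map (RingHom.id L))) =
      (algebraMap L[X] K r) ^ g.natDegree * ψ (algebraMap L[X] K₀ g))
    (hψ₁ : ∀ g : M[X], algebraMap M[X] K₁ (pb (q.map (algebraMap L M)) (r.map (algebraMap L M))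
      (g.map (RingHom.id M))) = (algebraMap M[X] K₁ (r.map (algebraMap L M))) ^ g.natDegree *
        ψ₁ (algebraMap M[X] K₁ g))
    {a₀ b₀ : L[X]} (hb₀ : b₀ ≠ 0) (hd₀ : a₀ ^ 2 - 4 * b₀ ≠ 0) {aK bK : K}
    {ι : Pt (crvT (algebraMap L[X] K₀ a₀) (algebraMap L[X] K₀ b₀)) K₀ →+ Pt (crvT aK bK) K}
    (hι : ∀ (x y : K₀) (hn : ((crvT (algebraMap L[X] K₀ a₀)
        (algebraMap L[X] K₀ b₀)).baseChange K₀).toAffine.Nonsingular x y),
        ∃ hn' : ((crvT aK bK).baseChange K).toAffine.Nonsingular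
          ((algebraMap L[X] K r) ^ 2 * ψ x) ((algebraMap L[X] K r) ^ 3 * ψ y),
          ι (Point.some x y hn) = Point.some _ _ hn')
    {ι₁ : Pt (crvT (algebraMap M[X] K₁ (a₀.map (algebraMap L M)))
      (algebraMap M[X] K₁ (b₀.map (algebraMap L M)))) K₁ →+
      Pt (crvT (algebraMap K K₁ aK) (algebraMap K K₁ bK)) K₁}
    (hι₁ : ∀ (x y : K₁) (hn : ((crvT (algebraMap M[X] K₁ (a₀.map (algebraMap L M)))
      (algebraMap M[X] K₁ (b₀.map (algebraMap L M)))).baseChange K₁).toAffine.Nonsingular x y),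
        ∃ hn' : ((crvT (algebraMap K K₁ aK)
          (algebraMap K K₁ bK)).baseChange K₁).toAffine.Nonsingular
          (((algebraMap M[X] K₁ (r.map (algebraMap L M))) ^ 1) ^ 2 * ψ₁ x)
          (((algebraMap M[X] K₁ (r.map (algebraMap L M))) ^ 1) ^ 3 * ψ₁ y),
          ι₁ (Point.some x y hn) = Point.some _ _ hn')
    (hP₁ : ∀ P : Pt (crvT (algebraMap K K₁ aK) (algebraMap K K₁ bK)) K₁, ∃ (Q : Pt (crvT
      (algebraMap K K₁ aK) (algebraMap K K₁ bK)) K₁) (P₀ : Pt (crvT (algebraMap M[X] K₁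
        (a₀.map (algebraMap L M))) (algebraMap M[X] K₁ (b₀.map (algebraMap L M)))) K₁),
        P = 2 • Q + ι₁ P₀)
    (hfg : AddGroup.FG (Pt (crvT aK bK) F)) :
    ∃ N : ℕ, ¬ 2 ∣ N ∧ ∀ P : Pt (crvT aK bK) K,
      ∃ P₀ : Pt (crvT (algebraMap L[X] K₀ a₀) (algebraMap L[X] K₀ b₀)) K₀, N • P = ι P₀ := by
  obtain ⟨j₀, hj₀⟩ := exists_lift (K := K₀) (K₁ := K₁) (algebraMap L M)
  have hr0' : algebraMap L[X] K r ≠ 0 := by
    rw [Ne, map_eq_zero_iff _ (IsFractionRing.injective L[X] K)]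
    exact hr
  have hρ₁ : (algebraMap M[X] K₁ (r.map (algebraMap L M))) ^ 1 =
      algebraMap K K₁ (algebraMap L[X] K r) := by
    rw [pow_one, hKK]
  -- the maps on the points
  let W₁ := crvT (algebraMap K K₁ aK) (algebraMap K K₁ bK)
  let θ : Pt W₁ K₁ →+ Pt (crvT aK bK) F :=
    (castP (crv_cast (K₁ := K₁) (Ω := F) aK bK).symm).toAddMonoidHom.comp
      (act W₁ (Algebra.ofId K₁ F))
  have hθ : Function.Injective θ := (castP _).injective.comp (act_inj W₁ (Algebra.ofId K₁ F))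
  have hfg₁ : AddGroup.FG (Pt W₁ K₁) := fg_of_inj θ hθ hfg
  obtain ⟨N, hN, hN'⟩ := two_exponent ι₁.range hfg₁ fun P => by
    obtain ⟨Q, P₀, e⟩ := hP₁ P
    exact ⟨Q, ι₁ P₀, ⟨P₀, rfl⟩, e⟩
  refine ⟨N, hN, fun P => ?_⟩
  let η : Pt (crvT aK bK) K →+ Pt W₁ K₁ :=
    (castP (crv_cast (K₁ := K₁) (Ω := K₁) aK bK)).toAddMonoidHom.comp
      (act (crvT aK bK) (Algebra.ofId K K₁))
  obtain ⟨P₀₁, hP₀₁⟩ := hN' (η P)
  rw [← map_nsmul] at hP₀₁
  have inj₀ := IsFractionRing.injective L[X] K₀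
  have n2 : algebraMap L[X] K₀ b₀ ≠ 0 := by
    rw [Ne, map_eq_zero_iff _ inj₀]
    exact hb₀
  have n3 : (algebraMap L[X] K₀ a₀) ^ 2 - 4 * algebraMap L[X] K₀ b₀ ≠ 0 := by
    rw [← emap', Ne, map_eq_zero_iff _ inj₀]
    exact hd₀
  obtain ⟨P₀, e⟩ := pts_desc (L := L) (K₀ := K₀) (K₀₁ := K₁) h3 hKK hr hne hj₀ hψ hψ₁ n2 n3 hr0' hι
    (hj₀ a₀).symm (hj₀ b₀).symm hρ₁ hι₁ (N • P) (η (N • P)) (by
      have hη : ∀ T : Pt (crvT aK bK) K, (T = 0 ∧ η T = 0) ∨ ∃ (x y : K)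
          (h : ((crvT aK bK).baseChange K).toAffine.Nonsingular x y)
          (h' : (W₁.baseChange K₁).toAffine.Nonsingular (algebraMap K K₁ x)
            (algebraMap K K₁ y)), T = Point.some x y h ∧ η T = Point.some _ _ h' := by
        intro T
        rcases T with _ | ⟨x, y, hn⟩
        · exact Or.inl ⟨rfl, map_zero η⟩
        · right
          obtain ⟨h, e⟩ := act_some (crvT aK bK) (Algebra.ofId K K₁) hn
          have e2 : η (Point.some x y hn) = castP (crv_cast (K₁ := K₁) (Ω := K₁) aK bK)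
            (act (crvT aK bK) (Algebra.ofId K K₁) (Point.some x y hn)) := rfl
          rw [e, castP_some] at e2
          exact ⟨x, y, hn, _, rfl, e2⟩
      exact hη (N • P)) P₀₁ hP₀₁
  exact ⟨P₀, e.symm⟩

end fin

end Pool.Agent.J4H46.TQ
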