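import Pool.Agent.J4H46.TQ.Desc
import Pool.Agent.N181.P9.Over
import Pool.Agent.N181.TD.Span

/-!
The points of the pullback of a curve `y² = x (x² + a x + b)` modulo two are pulled back from the base.
-/

set_option autoImplicit false
set_option linter.all false

open Polynomial IsDedekindDomain WeierstrassCurve WeierstrassCurve.Affine
open scoped Classical

namespace Pool.Agent.J4H46.TQ

open Pool.Agent.N181.P3 (hb hb_map hb_sum hb_psi natDegree_hb_le rm_C_mul Scaled scaleHom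
  scaleHom_inj)
open Pool.Agent.N181.P8 (natDegree_pb')
open Pool.Agent.N181.P9
open Pool.Agent.X243.Gen (pb pb_sum pb_mul pb_C pb_one pb_pow pb_lin pb_map pb_frac pb_ne exists_psi
  natDegree_pb root_of_prime form_cop InfT)
open Pool.Agent.X243.Tate (nonsT)
open Pool.Agent.X243.CD
open Pool.Agent.TH115.GD
open Pool.Agent.W309.TD (Sq hp SqStable sqStable_of_odd)

section point

variable {K₀ K : Type} [Field K₀] [Field K]

theorem pt_pullS (ψ : K₀ →+* K) {a₀ b₀ : K₀} {a b ρ : K} (hρ : ρ ≠ 0) (ha : a = ρ ^ 2 * ψ a₀)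
    (hb : b = ρ ^ 4 * ψ b₀) (h2 : (2 : K₀) ≠ 0) (hb₀ : b₀ ≠ 0) (hd₀ : a₀ ^ 2 - 4 * b₀ ≠ 0)
    (P : Pt (crvT a₀ b₀) K₀) :
    ∃ Q : Pt (crvT a b) K, PulS ψ ρ Q ∧ ∃ h : K, h ≠ 0 ∧ ψ (dT b₀ P) = h ^ 2 * dT b Q := by
  have hinj := ψ.injective
  have h2' : (2 : K) ≠ 0 := by
    rw [← map_ofNat ψ 2]
    exact (map_ne_zero_iff _ hinj).2 h2
  have hρ2 : ρ ^ 2 ≠ 0 := pow_ne_zero 2 hρ
  have hρ4 : ρ ^ 4 ≠ 0 := pow_ne_zero 4 hρ
  have hb' : b ≠ 0 := by rw [hb]; exact mul_ne_zero hρ4 ((map_ne_zero_iff _ hinj).2 hb₀)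
  have hd' : a ^ 2 - 4 * b ≠ 0 := by
    have e : a ^ 2 - 4 * b = ρ ^ 4 * ψ (a₀ ^ 2 - 4 * b₀) := by
      rw [ha, hb, map_sub, map_mul, map_pow, map_ofNat]
      ring
    rw [e]
    exact mul_ne_zero hρ4 ((map_ne_zero_iff _ hinj).2 hd₀)
  cases P with
  | zero =>
    refine ⟨0, Or.inl rfl, 1, one_ne_zero, ?_⟩
    show ψ 1 = 1 ^ 2 * 1
    rw [map_one]; ring
  | some x y hn =>
    have hy : y ^ 2 = x * (x ^ 2 + a₀ * x + b₀) := crvT_eq hn
    have hQ : ((crvT a b).baseChange K).toAffine.Nonsingular (ρ ^ 2 * ψ x) (ρ ^ 3 * ψ y) := by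
      refine nonsT h2' hb' hd' ?_
      have h3 := congrArg ψ hy
      rw [map_pow, map_mul, map_add, map_add, map_pow, map_mul] at h3
      rw [ha, hb]
      linear_combination ρ ^ 6 * h3
    refine ⟨Point.some _ _ hQ, Or.inr ⟨x, y, hQ, rfl⟩, ?_⟩
    by_cases hx : x = 0
    · refine ⟨(ρ ^ 2)⁻¹, inv_ne_zero hρ2, ?_⟩
      show ψ (if x = 0 then b₀ else x) = _ * (if ρ ^ 2 * ψ x = 0 then b else ρ ^ 2 * ψ x)
      rw [if_pos hx, if_pos (by rw [hx, map_zero, mul_zero]), hb]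
      field_simp
    · refine ⟨ρ⁻¹, inv_ne_zero hρ, ?_⟩
      have hx' : ψ x ≠ 0 := (map_ne_zero_iff _ hinj).2 hx
      show ψ (if x = 0 then b₀ else x) = _ * (if ρ ^ 2 * ψ x = 0 then b else ρ ^ 2 * ψ x)
      rw [if_neg hx, if_neg (mul_ne_zero hρ2 hx')]
      field_simp


/-- **The pullback of points** `(x, y) ↦ (ρ² ψ(x), ρ³ ψ(y))` is an injective homomorphism. -/
theorem exists_homT (ψ : K₀ →+* K) {a₀ b₀ : K₀} {a b ρ : K} (hρ : ρ ≠ 0) (ha : a = ρ ^ 2 * ψ a₀)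
    (hb : b = ρ ^ 4 * ψ b₀) :
    ∃ ι : Pt (crvT a₀ b₀) K₀ →+ Pt (crvT a b) K, Function.Injective ι ∧
      (∀ (x y : K₀) (hn : ((crvT a₀ b₀).baseChange K₀).toAffine.Nonsingular x y),
        ∃ hn' : ((crvT a b).baseChange K).toAffine.Nonsingular (ρ ^ 2 * ψ x) (ρ ^ 3 * ψ y),
          ι (Point.some x y hn) = Point.some (ρ ^ 2 * ψ x) (ρ ^ 3 * ψ y) hn') := by
  letI : Algebra K₀ K := ψ.toAlgebra
  have hψ : algebraMap K₀ K = ψ := rfl
  have hs : Scaled ((crvT a₀ b₀).baseChange K).toAffine ((crvT a b).baseChange K).toAffine ρ := by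
    refine ⟨hρ, ?_, ?_, ?_, ?_, ?_⟩
    · show (algebraMap K K) (0 : K) = ρ * (algebraMap K₀ K) (0 : K₀)
      rw [map_zero, map_zero, mul_zero]
    · show a = ρ ^ 2 * ψ a₀
      exact ha
    · show (algebraMap K K) (0 : K) = ρ ^ 3 * (algebraMap K₀ K) (0 : K₀)
      rw [map_zero, map_zero, mul_zero]
    · show b = ρ ^ 4 * ψ b₀
      exact hb
    · show (algebraMap K K) (0 : K) = ρ ^ 6 * (algebraMap K₀ K) (0 : K₀)
      rw [map_zero, map_zero, mul_zero]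
  have hsome : ∀ (x y : K₀) (hn : ((crvT a₀ b₀).baseChange K₀).toAffine.Nonsingular x y),
        ∃ hn' : ((crvT a b).baseChange K).toAffine.Nonsingular (ρ ^ 2 * ψ x) (ρ ^ 3 * ψ y),
          ((scaleHom hs).comp (act (crvT a₀ b₀) (Algebra.ofId K₀ K))) (Point.some x y hn) =
            Point.some (ρ ^ 2 * ψ x) (ρ ^ 3 * ψ y) hn' := by
    intro x y hn
    have h' := ((crvT a₀ b₀).toAffine.baseChange_nonsingular (f := Algebra.ofId K₀ K)
        (Algebra.ofId K₀ K).toRingHom.injective x y).mpr hn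
    exact ⟨hs.nons h', rfl⟩
  exact ⟨(scaleHom hs).comp (act (crvT a₀ b₀) (Algebra.ofId K₀ K)),
    (scaleHom_inj hs).comp (Point.map_injective (W' := (crvT a₀ b₀).toAffine)
      (f := Algebra.ofId K₀ K)), hsome⟩

/-- The points `(ρ² ψ(x), ρ³ ψ(y))` are in the image. -/
theorem pulS_range (ψ : K₀ →+* K) {a₀ b₀ : K₀} {a b ρ : K} (hρ : ρ ≠ 0) (ha : a = ρ ^ 2 * ψ a₀)
    (hb : b = ρ ^ 4 * ψ b₀) (h2 : (2 : K₀) ≠ 0) (hb₀ : b₀ ≠ 0) (hd₀ : a₀ ^ 2 - 4 * b₀ ≠ 0)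
    {ι : Pt (crvT a₀ b₀) K₀ →+ Pt (crvT a b) K}
    (hι : ∀ (x y : K₀) (hn : ((crvT a₀ b₀).baseChange K₀).toAffine.Nonsingular x y),
        ∃ hn' : ((crvT a b).baseChange K).toAffine.Nonsingular (ρ ^ 2 * ψ x) (ρ ^ 3 * ψ y),
          ι (Point.some x y hn) = Point.some (ρ ^ 2 * ψ x) (ρ ^ 3 * ψ y) hn')
    {P : Pt (crvT a b) K} (hP : PulS ψ ρ P) : ∃ P₀, ι P₀ = P := by
  rcases hP with rfl | ⟨x, y, h, rfl⟩
  · exact ⟨0, map_zero ι⟩
  · have h1 := crvT_eq h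
    have h2' : y ^ 2 = x * (x ^ 2 + a₀ * x + b₀) := by
      apply ψ.injective
      have h3 : (ρ ^ 3 * ψ y) ^ 2 = ρ ^ 2 * ψ x * ((ρ ^ 2 * ψ x) ^ 2 + a * (ρ ^ 2 * ψ x) + b) := h1
      rw [ha, hb] at h3
      simp only [map_mul, map_add, map_pow]
      apply mul_left_cancel₀ (pow_ne_zero 6 hρ)
      linear_combination h3
    obtain ⟨hn', e⟩ := hι x y (nonsT h2 hb₀ hd₀ h2')
    exact ⟨_, e⟩

end point

section main

variable {k L K₀ K : Type} [Field k] [Field L] [Field K₀] [Algebra k[X] K₀] [IsFractionRing k[X] K₀]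
  [Field K] [Algebra L[X] K] [IsFractionRing L[X] K]

theorem comp_pullS (φ : k →+* L) (h2 : (2 : k) ≠ 0) {m n : ℕ} {a b : k[X]}
    (ha : a.natDegree ≤ 2 * m) (hbm : b.natDegree ≤ 4 * m) (hb0 : b ≠ 0) (hd0 : a ^ 2 - 4 * b ≠ 0)
    (hsb : b.Splits) (hC : Comp2 K₀ m a b) {q r : L[X]} (hr0 : r ≠ 0) (hn0 : 0 < n)
    {ψ : K₀ →+* K}
    (hψ : ∀ g : k[X], algebraMap L[X] K (pb q r (g.map φ)) =
      (algebraMap L[X] K r) ^ g.natDegree * ψ (algebraMap k[X] K₀ g))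
    (hirr : ∀ ξ, b.IsRoot ξ → PwO (q - C (φ ξ) * r) ∧ (q - C (φ ξ) * r).natDegree = n)
    (hr : r = 1 ∨ b.natDegree = 4 * m ∨ (PwO r ∧ r.natDegree = n))
    (hpar : ¬ 2 ∣ n) {aK bK : K}
    (haK : aK = algebraMap L[X] K (hb q r (2 * m) (a.map φ)))
    (hbK : bK = algebraMap L[X] K (hb q r (4 * m) (b.map φ))) :
    ∀ A : L[X], A ≠ 0 → (∀ π : L[X], Irreducible π → π ∣ A → π ∣ hb q r (4 * m) (b.map φ)) →
      ((hb q r (4 * m) (b.map φ)).natDegree = 4 * (n * m) → 2 ∣ A.natDegree) →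
      ∃ (P : Pt (crvT aK bK) K), PulS ψ ((algebraMap L[X] K r) ^ m) P ∧ ∃ (c : L) (h : K),
        c ≠ 0 ∧ h ≠ 0 ∧ algebraMap L[X] K (C c * A) = h ^ 2 * dT bK P := by
  intro A hA0 hAd hAdeg
  obtain ⟨c, j, A₀, w, hc, hA₀, hw, h1, h2', h4, h5⟩ := fac2 φ (M := 4 * m) hb0 hsb hirr hr A hA0 hAd
  have hw0 : algebraMap L[X] K w ≠ 0 := by simpa using hw
  have hr0' : algebraMap L[X] K r ≠ 0 := by simpa using hr0
  have inj₀ := IsFractionRing.injective k[X] K₀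
  have h2₀ : (2 : K₀) ≠ 0 := by
    have h3 : algebraMap k[X] K₀ (C 2) ≠ 0 := by simpa using h2
    rwa [C_ofNat, map_ofNat] at h3
  have Db := natDegree_pb' φ hb0 hsb hn0 fun ξ h => (hirr ξ h).2
  -- the degree of the pullback of `b`
  have hdeg : r ≠ 1 ∨ b.natDegree = 4 * m →
      (hb q r (4 * m) (b.map φ)).natDegree = 4 * (n * m) := by
    intro hcase
    have hne : pb q r (b.map φ) ≠ 0 := by
      intro h0
      have := hψ b
      rw [h0, map_zero] at this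
      rcases mul_eq_zero.1 this.symm with h | h
      · exact pow_ne_zero _ hr0' h
      · rw [map_eq_zero, map_eq_zero_iff _ inj₀] at h
        exact hb0 h
    rw [hb, natDegree_mul (pow_ne_zero _ hr0) hne, natDegree_pow, Db, natDegree_map]
    rcases hcase with h | h
    · rcases hr with h' | h' | h'
      · exact absurd h' h
      · rw [h', Nat.sub_self, zero_mul, zero_add]
        ring
      · rw [h'.2, mul_comm n b.natDegree, ← add_mul, Nat.sub_add_cancel hbm]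
        ring
    · rw [h, Nat.sub_self, zero_mul, zero_add]
      ring
  have h2dvd : ∀ {x : ℕ}, 2 ∣ n * x → 2 ∣ x := fun h =>
    ((Nat.Prime.dvd_mul Nat.prime_two).1 h).resolve_left hpar
  -- the degree is even
  have hmod : 2 ∣ A.natDegree → 2 ∣ j + A₀.natDegree := by
    intro h
    apply h2dvd
    rw [← h5]
    exact (Nat.dvd_add_right h).2 (dvd_mul_right 2 _)
  -- the condition for `A₀`
  have hdeg₀ : b.natDegree = 4 * m → 2 ∣ A₀.natDegree := by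
    intro h
    have h6 := hmod (hAdeg (hdeg (Or.inr h)))
    rwa [h2' h, zero_add] at h6
  -- the power of `r` is a square
  obtain ⟨z, hz, ez⟩ : ∃ z : K, z ≠ 0 ∧ (algebraMap L[X] K r) ^ (j + A₀.natDegree) = z ^ 2 := by
    by_cases hr1 : r = 1
    · exact ⟨1, one_ne_zero, by rw [hr1, map_one, one_pow, one_pow]⟩
    · obtain ⟨i, hi⟩ := hmod (hAdeg (hdeg (Or.inl hr1)))
      exact ⟨(algebraMap L[X] K r) ^ i, pow_ne_zero _ hr0', by rw [hi, ← pow_mul, mul_comm]⟩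
  obtain ⟨P₀, c1, g1, hc1, hg1, e1⟩ := hC A₀ hA₀ h1 hdeg₀
  have hdK : (algebraMap k[X] K₀ a) ^ 2 - 4 * algebraMap k[X] K₀ b ≠ 0 := by
    have e : (algebraMap k[X] K₀ a) ^ 2 - 4 * algebraMap k[X] K₀ b =
        algebraMap k[X] K₀ (a ^ 2 - 4 * b) := by
      rw [map_sub, map_mul, map_pow, map_ofNat]
    rw [e, Ne, map_eq_zero_iff _ inj₀]
    exact hd0
  have ρa : aK = ((algebraMap L[X] K r) ^ m) ^ 2 * ψ (algebraMap k[X] K₀ a) := by
    rw [haK, hb_psi φ hψ ha, ← pow_mul, mul_comm m 2]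
  have ρb : bK = ((algebraMap L[X] K r) ^ m) ^ 4 * ψ (algebraMap k[X] K₀ b) := by
    rw [hbK, hb_psi φ hψ hbm, ← pow_mul, mul_comm m 4]
  obtain ⟨Q, hQS, u, hu, eu⟩ := pt_pullS ψ (pow_ne_zero m hr0') ρa ρb h2₀ (by simpa using hb0) hdK P₀
  have hψC : ∀ c : k, ψ (algebraMap k[X] K₀ (C c)) = algebraMap L[X] K (C (φ c)) := by
    intro c
    have := hψ (C c)
    rw [map_C, pb_C, natDegree_C, pow_zero, one_mul] at this
    exact this.symm
  refine ⟨Q, hQS, φ c1 * c⁻¹, z * (ψ g1 * u) / algebraMap L[X] K w,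
    mul_ne_zero ((map_ne_zero_iff _ φ.injective).2 hc1)
    (inv_ne_zero hc), div_ne_zero (mul_ne_zero hz (mul_ne_zero ((map_ne_zero_iff _
      ψ.injective).2 hg1) hu)) hw0, ?_⟩
  have k1 : C (φ c1 * c⁻¹) * A * w ^ 2 = C (φ c1) * (r ^ j * pb q r (A₀.map φ)) := by
    have k3 : C c⁻¹ * C c = (1 : L[X]) := by
      rw [← C_mul, inv_mul_cancel₀ hc, C_1]
    rw [C_mul]
    linear_combination C (φ c1) * C c⁻¹ * h4 + C (φ c1) * (r ^ j * pb q r (A₀.map φ)) * k3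
  have k2 : algebraMap L[X] K (C (φ c1) * (r ^ j * pb q r (A₀.map φ))) =
      z ^ 2 * ψ (algebraMap k[X] K₀ (C c1 * A₀)) := by
    rw [map_mul, map_mul, map_pow, hψ, map_mul (algebraMap k[X] K₀), map_mul ψ, hψC, ← ez, pow_add]
    ring
  have k4 := congrArg (algebraMap L[X] K) k1
  rw [k2, e1, map_mul ψ, map_pow ψ, eu, map_mul, map_pow] at k4
  rw [div_pow, div_mul_eq_mul_div, eq_div_iff (pow_ne_zero 2 hw0), k4]
  ring


/-- The place of odd multiplicity. -/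
theorem odd_place_of {f : L[X]} (h : HasOddFactor f) :
    ∃ (π : L[X]) (hπ : Irreducible π), SqStable π ∧
      ¬ IsSquare ((hp π hπ).valuation K (algebraMap L[X] K f)) := by
  obtain ⟨π, m, hπ, ho, ⟨g, rfl⟩, hnd⟩ := h
  refine ⟨π, hπ, sqStable_of_odd hπ ho, ?_⟩
  have hg : ¬ π ∣ g := by
    rintro ⟨g', rfl⟩
    exact hnd ⟨g', by ring⟩
  have hns := hp_ns (K := K) hπ
  have hv0 : (hp π hπ).valuation K (algebraMap L[X] K π) ≠ 0 := by
    rw [Valuation.ne_zero_iff]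
    simpa using hπ.ne_zero
  rw [map_mul, map_mul, hp_one hπ hg, mul_one, map_pow, map_pow]
  rintro ⟨w, hw⟩
  apply hns
  refine ⟨w / ((hp π hπ).valuation K (algebraMap L[X] K π)) ^ m, ?_⟩
  rw [div_mul_div_comm, ← hw, pow_add, pow_mul', pow_one, pow_two]
  field_simp

end main

end Pool.Agent.J4H46.TQ
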